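import Mathlib

namespace Pool.Agent.Q206.Dir

open MeasureTheory Set
open scoped Interval

/-- `(f, g)` solves the Dirac equation `(D_m - V) Ψ = l Ψ` on the line, `Ψ = (f, g)`, for
`D_m = -i σ₂ d/dx + m σ₃`: in components `f' = (V + l + m) g` and `g' = (m - V - l) f`, for
absolutely continuous `f, g`, almost everywhere (written as integral equations) -/
structure IsSol (m : ℝ) (V : ℝ → ℝ) (l : ℝ) (f g : ℝ → ℂ) : Prop where
  cf : Continuous f
  cg : Continuous g
  ef : ∀ x, f x = f 0 + ∫ t in (0:ℝ)..x, ((V t + l + m : ℝ) : ℂ) * g t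
  eg : ∀ x, g x = g 0 + ∫ t in (0:ℝ)..x, ((m - V t - l : ℝ) : ℂ) * f t

/-- the eigenvalues of `D_m - V` in the gap `(-m, m)` -/
def Eig (m : ℝ) (V : ℝ → ℝ) : Set ℝ :=
  {l | l ∈ Ioo (-m) m ∧ ∃ f g : ℝ → ℂ, IsSol m V l f g ∧ MemLp f 2 ∧ MemLp g 2 ∧
    ∃ x, f x ≠ 0 ∨ g x ≠ 0}

/-- `λ_D(V)`: the lowest eigenvalue of `D_m - V` in the gap, `m` if there is none -/
noncomputable def lamD (m : ℝ) (V : ℝ → ℝ) : ℝ := sInf (insert m (Eig m V))

/-- the square well of depth `v` on `[0, L)` -/
noncomputable def well (v L : ℝ) : ℝ → ℝ := Set.indicator (Set.Ico 0 L) fun _ => v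

theorem integrable_well (v L : ℝ) : Integrable (well v L) := by
  unfold well
  rw [integrable_indicator_iff measurableSet_Ico]
  exact integrableOn_const (by simp)

theorem integral_well (v : ℝ) {L : ℝ} (hL : 0 ≤ L) : ∫ x, well v L x = v * L := by
  unfold well
  rw [integral_indicator measurableSet_Ico]
  simp [hL]
  ring

theorem well_right (v L x : ℝ) : ∀ᶠ y in nhdsWithin x (Ioi x), well v L y = well v L x := by
  rcases lt_or_ge x 0 with h | h
  · filter_upwards [Ioo_mem_nhdsGT h] with y hy
    unfold well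
    rw [indicator_of_notMem (by rw [mem_Ico, not_and_or, not_le]; left; exact hy.2),
      indicator_of_notMem (by rw [mem_Ico, not_and_or, not_le]; left; exact h)]
  · rcases lt_or_ge x L with h2 | h2
    · filter_upwards [Ioo_mem_nhdsGT h2] with y hy
      unfold well
      rw [indicator_of_mem (by rw [mem_Ico]; exact ⟨h.trans hy.1.le, hy.2⟩),
        indicator_of_mem (by rw [mem_Ico]; exact ⟨h, h2⟩)]
    · filter_upwards [self_mem_nhdsWithin] with y hy
      unfold well
      rw [indicator_of_notMem (by rw [mem_Ico, not_and_or, not_lt]; right; exact h2.trans (le_of_lt hy)),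
        indicator_of_notMem (by rw [mem_Ico, not_and_or, not_lt]; right; exact h2)]

theorem intInt (v L a c x : ℝ) (h : ℝ → ℂ) (hh : Continuous h) (y : ℝ) :
    IntervalIntegrable (fun t => ((a * well v L t + c : ℝ) : ℂ) * h t) volume x y := by
  have h1 : IntervalIntegrable (fun t => ((a * well v L t + c : ℝ) : ℂ)) volume x y := by
    have h2 : IntervalIntegrable (fun t => ((a * well v L t : ℝ) : ℂ) + (c : ℂ)) volume x y := by
      apply IntervalIntegrable.add
      · exact (((integrable_well v L).const_mul a).ofReal (𝕜 := ℂ)).intervalIntegrable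
      · exact intervalIntegrable_const
    refine h2.congr ?_
    intro t _
    simp
  exact h1.mul_continuousOn hh.continuousOn

theorem right_of_int (v L a c : ℝ) (f h : ℝ → ℂ) (hh : Continuous h)
    (hf : ∀ x, f x = f 0 + ∫ t in (0:ℝ)..x, ((a * well v L t + c : ℝ) : ℂ) * h t) (x : ℝ) :
    HasDerivWithinAt f (((a * well v L x + c : ℝ) : ℂ) * h x) (Ici x) x := by
  have h1 : f = fun x => f 0 + ∫ t in (0:ℝ)..x, ((a * well v L t + c : ℝ) : ℂ) * h t := by
    funext x; exact hf x
  rw [h1]
  apply HasDerivWithinAt.const_add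
  apply intervalIntegral.integral_hasDerivWithinAt_right (t := Ioi x)
  · exact intInt v L a c 0 h hh x
  · refine ⟨univ, Filter.univ_mem, ?_⟩
    rw [Measure.restrict_univ]
    apply AEStronglyMeasurable.mul
    · have : AEStronglyMeasurable (fun t => ((a * well v L t + c : ℝ))) volume :=
        ((integrable_well v L).aestronglyMeasurable.const_mul a).add_const c
      exact Complex.continuous_ofReal.comp_aestronglyMeasurable this
    · exact hh.aestronglyMeasurable
  · have h2 : ContinuousWithinAt (fun t => ((a * well v L x + c : ℝ) : ℂ) * h t) (Ioi x) x :=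
      (continuous_const.mul hh).continuousWithinAt
    refine h2.congr_of_eventuallyEq ?_ rfl
    filter_upwards [well_right v L x] with y hy
    rw [hy]

end Pool.Agent.Q206.Dir
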