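import Pool.Agent.Q206.Dir.Nec

namespace Pool.Agent.Q206.Dir

open MeasureTheory Set

theorem IsSol.df {m v L l : ℝ} {f g : ℝ → ℂ} (h : IsSol m (well v L) l f g) (x : ℝ) :
    HasDerivWithinAt f (((well v L x + l + m : ℝ) : ℂ) * g x) (Ici x) x := by
  have e : ∀ t, ((well v L t + l + m : ℝ) : ℂ) = ((1 * well v L t + (l + m) : ℝ) : ℂ) := by
    intro t; push_cast; ring
  have h1 := right_of_int v L 1 (l + m) f g h.cg (by
    intro y
    rw [h.ef y]
    simp only [e]) x
  rwa [← e] at h1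

theorem IsSol.dg {m v L l : ℝ} {f g : ℝ → ℂ} (h : IsSol m (well v L) l f g) (x : ℝ) :
    HasDerivWithinAt g (((m - well v L x - l : ℝ) : ℂ) * f x) (Ici x) x := by
  have e : ∀ t, ((m - well v L t - l : ℝ) : ℂ) = (((-1) * well v L t + (m - l) : ℝ) : ℂ) := by
    intro t; push_cast; ring
  have h1 := right_of_int v L (-1) (m - l) g f h.cf (by
    intro y
    rw [h.eg y]
    simp only [e]) x
  rwa [← e] at h1

theorem well_out {v L x : ℝ} (hx : x < 0 ∨ L ≤ x) : well v L x = 0 := by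
  unfold well
  rw [indicator_of_notMem]
  rw [mem_Ico, not_and_or, not_le, not_lt]
  exact hx

theorem well_in {v L x : ℝ} (h1 : 0 ≤ x) (h2 : x < L) : well v L x = v := by
  unfold well
  rw [indicator_of_mem]
  exact ⟨h1, h2⟩

theorem nec {m v L l κ k : ℝ} {f g : ℝ → ℂ} (hl : l ∈ Ioo (-m) m) (hL : 0 < L)
    (hκ : 0 < κ) (hκ2 : κ ^ 2 = m ^ 2 - l ^ 2) (hk : k ≠ 0) (hk2 : k ^ 2 = (l + v) ^ 2 - m ^ 2)
    (h : IsSol m (well v L) l f g) (hf : MemLp f 2) (hg : MemLp g 2)
    (hne : ∃ x, f x ≠ 0 ∨ g x ≠ 0) :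
    κ * k * Real.cos (k * L) + (m ^ 2 - l ^ 2 - v * l) * Real.sin (k * L) = 0 := by
  have hA : 0 < l + m := by linarith [hl.1]
  have hAB : κ ^ 2 = (l + m) * (m - l) := by rw [hκ2]; ring
  have hAB' : k ^ 2 = -((v + l + m) * (m - v - l)) := by rw [hk2]; ring
  -- derivatives outside and inside
  have dfo : ∀ x, (x < 0 ∨ L ≤ x) → HasDerivWithinAt f (((l + m : ℝ) : ℂ) * g x) (Ici x) x := by
    intro x hx
    have := h.df x
    rwa [well_out hx, zero_add] at this
  have dgo : ∀ x, (x < 0 ∨ L ≤ x) → HasDerivWithinAt g (((m - l : ℝ) : ℂ) * f x) (Ici x) x := by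
    intro x hx
    have := h.dg x
    rwa [well_out hx, sub_zero] at this
  have dfi : ∀ x, 0 ≤ x → x < L → HasDerivWithinAt f (((v + l + m : ℝ) : ℂ) * g x) (Ici x) x := by
    intro x h1 h2
    have := h.df x
    rwa [well_in h1 h2] at this
  have dgi : ∀ x, 0 ≤ x → x < L → HasDerivWithinAt g (((m - v - l : ℝ) : ℂ) * f x) (Ici x) x := by
    intro x h1 h2
    have := h.dg x
    rwa [well_in h1 h2] at this
  -- left half line
  have L1 : ∀ x, x ≤ 0 → ((κ : ℂ) * f x + ((l + m : ℝ) : ℂ) * g x) * (Real.exp (-(κ * x)) : ℝ) =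
      (κ : ℂ) * f 0 + ((l + m : ℝ) : ℂ) * g 0 := by
    intro x hx
    have := cm1 (a := x) (b := 0) h.cf h.cg (fun y hy => dfo y (Or.inl hy.2))
      (fun y hy => dgo y (Or.inl hy.2)) hAB 0 (by simp [hx])
    rw [← this]; simp
  have L2 : ∀ x, x ≤ 0 → ((κ : ℂ) * f x - ((l + m : ℝ) : ℂ) * g x) * (Real.exp (κ * x) : ℝ) =
      (κ : ℂ) * f 0 - ((l + m : ℝ) : ℂ) * g 0 := by
    intro x hx
    have := cm2 (a := x) (b := 0) h.cf h.cg (fun y hy => dfo y (Or.inl hy.2))
      (fun y hy => dgo y (Or.inl hy.2)) hAB 0 (by simp [hx])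
    rw [← this]; simp
  have R1 : ∀ x, L ≤ x → ((κ : ℂ) * f x + ((l + m : ℝ) : ℂ) * g x) * (Real.exp (-(κ * x)) : ℝ) =
      ((κ : ℂ) * f L + ((l + m : ℝ) : ℂ) * g L) * (Real.exp (-(κ * L)) : ℝ) := by
    intro x hx
    exact cm1 (a := L) (b := x) h.cf h.cg (fun y hy => dfo y (Or.inr hy.1))
      (fun y hy => dgo y (Or.inr hy.1)) hAB x (by simp [hx])
  have R2 : ∀ x, L ≤ x → ((κ : ℂ) * f x - ((l + m : ℝ) : ℂ) * g x) * (Real.exp (κ * x) : ℝ) =
      ((κ : ℂ) * f L - ((l + m : ℝ) : ℂ) * g L) * (Real.exp (κ * L) : ℝ) := by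
    intro x hx
    exact cm2 (a := L) (b := x) h.cf h.cg (fun y hy => dfo y (Or.inr hy.1))
      (fun y hy => dgo y (Or.inr hy.1)) hAB x (by simp [hx])
  -- decay on the left
  have hw1 : MemLp (fun x => (κ : ℂ) * f x - ((l + m : ℝ) : ℂ) * g x) 2 :=
    (hf.const_mul _).sub (hg.const_mul _)
  have hw2 : MemLp (fun x => (κ : ℂ) * f x + ((l + m : ℝ) : ℂ) * g x) 2 :=
    (hf.const_mul _).add (hg.const_mul _)
  have E0 : (κ : ℂ) * f 0 - ((l + m : ℝ) : ℂ) * g 0 = 0 := by
    by_contra hc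
    refine not_bddBelow_left hw1 (norm_pos_iff.2 hc) 0 ?_
    intro x hx
    rw [← L2 x hx, norm_mul, Complex.norm_real, Real.norm_eq_abs, abs_of_pos (Real.exp_pos _)]
    apply mul_le_of_le_one_right (norm_nonneg _)
    rw [Real.exp_le_one_iff]
    exact mul_nonpos_of_nonneg_of_nonpos hκ.le hx
  have EL : (κ : ℂ) * f L + ((l + m : ℝ) : ℂ) * g L = 0 := by
    by_contra hc
    have hpos : 0 < ‖((κ : ℂ) * f L + ((l + m : ℝ) : ℂ) * g L) * (Real.exp (-(κ * L)) : ℝ)‖ := by
      rw [norm_pos_iff]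
      refine mul_ne_zero hc ?_
      rw [Complex.ofReal_ne_zero]
      exact (Real.exp_pos _).ne'
    refine not_bddBelow_right hw2 hpos L ?_
    intro x hx
    rw [← R1 x hx, norm_mul, Complex.norm_real, Real.norm_eq_abs, abs_of_pos (Real.exp_pos _)]
    apply mul_le_of_le_one_right (norm_nonneg _)
    rw [Real.exp_le_one_iff]
    have : 0 ≤ κ * x := mul_nonneg hκ.le (hL.le.trans hx)
    linarith
  -- inside
  have I3 : ∀ x ∈ Icc 0 L, (Real.cos (k * (x - 0)) : ℝ) * f x -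
      ((v + l + m) / k : ℝ) * (Real.sin (k * (x - 0)) : ℝ) * g x = f 0 :=
    cm3 h.cf h.cg (fun y hy => dfi y hy.1 hy.2) (fun y hy => dgi y hy.1 hy.2) hk hAB'
  have I4 : ∀ x ∈ Icc 0 L, (Real.cos (k * (x - 0)) : ℝ) * g x -
      ((m - v - l) / k : ℝ) * (Real.sin (k * (x - 0)) : ℝ) * f x = g 0 :=
    cm4 h.cf h.cg (fun y hy => dfi y hy.1 hy.2) (fun y hy => dgi y hy.1 hy.2) hk hAB'
  simp only [sub_zero] at I3 I4
  have hκc : (κ : ℂ) ≠ 0 := by exact_mod_cast hκ.ne'
  have hAc : ((l + m : ℝ) : ℂ) ≠ 0 := by exact_mod_cast hA.ne'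
  have hkc : (k : ℂ) ≠ 0 := by exact_mod_cast hk
  -- nonvanishing at `L`
  have hgL : g L ≠ 0 := by
    intro hgL
    have hfL : f L = 0 := by
      rw [hgL, mul_zero, add_zero] at EL
      exact (mul_eq_zero.1 EL).resolve_left hκc
    have hf0 : f 0 = 0 := by
      rw [← I3 L ⟨hL.le, le_rfl⟩, hfL, hgL]; simp
    have hg0 : g 0 = 0 := by
      rw [← I4 L ⟨hL.le, le_rfl⟩, hfL, hgL]; simp
    have key : ∀ a b : ℂ, (κ : ℂ) * a + ((l + m : ℝ) : ℂ) * b = 0 →
        (κ : ℂ) * a - ((l + m : ℝ) : ℂ) * b = 0 → a = 0 ∧ b = 0 := by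
      intro a b h1 h2
      constructor
      · have : (κ : ℂ) * a = 0 := by linear_combination (h1 + h2) / 2
        exact (mul_eq_zero.1 this).resolve_left hκc
      · have : ((l + m : ℝ) : ℂ) * b = 0 := by linear_combination (h1 - h2) / 2
        exact (mul_eq_zero.1 this).resolve_left hAc
    have hexp : ∀ y : ℝ, ((Real.exp y : ℝ) : ℂ) ≠ 0 := by
      intro y; exact_mod_cast (Real.exp_pos y).ne'
    have hall : ∀ x, f x = 0 ∧ g x = 0 := by
      intro x
      rcases le_total x 0 with hx | hx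
      · apply key
        · have := L1 x hx
          rw [hf0, hg0, mul_zero, mul_zero, add_zero] at this
          exact (mul_eq_zero.1 this).resolve_right (hexp _)
        · have := L2 x hx
          rw [hf0, hg0, mul_zero, mul_zero, sub_zero] at this
          exact (mul_eq_zero.1 this).resolve_right (hexp _)
      · rcases le_total L x with hx2 | hx2
        · apply key
          · have := R1 x hx2
            rw [hfL, hgL, mul_zero, mul_zero, add_zero, zero_mul] at this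
            exact (mul_eq_zero.1 this).resolve_right (hexp _)
          · have := R2 x hx2
            rw [hfL, hgL, mul_zero, mul_zero, sub_zero, zero_mul] at this
            exact (mul_eq_zero.1 this).resolve_right (hexp _)
        · have h3 := I3 x ⟨hx, hx2⟩
          have h4 := I4 x ⟨hx, hx2⟩
          rw [hf0] at h3
          rw [hg0] at h4
          have hcs : ((Real.cos (k * x) : ℝ) : ℂ) ^ 2 + ((Real.sin (k * x) : ℝ) : ℂ) ^ 2 = 1 := by
            exact_mod_cast Real.cos_sq_add_sin_sq (k * x)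
          have hk3 : (((v + l + m) / k : ℝ) : ℂ) * (((m - v - l) / k : ℝ) : ℂ) = -1 := by
            rw [← Complex.ofReal_mul]
            have : (v + l + m) / k * ((m - v - l) / k) = -1 := by
              field_simp
              linarith
            rw [this]; simp
          constructor
          · linear_combination ((Real.cos (k * x) : ℝ) : ℂ) * h3 +
              (((v + l + m) / k : ℝ) : ℂ) * ((Real.sin (k * x) : ℝ) : ℂ) * h4 - f x * hcs +
              ((Real.sin (k * x) : ℝ) : ℂ) ^ 2 * f x * hk3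
          · linear_combination ((Real.cos (k * x) : ℝ) : ℂ) * h4 +
              (((m - v - l) / k : ℝ) : ℂ) * ((Real.sin (k * x) : ℝ) : ℂ) * h3 - g x * hcs +
              ((Real.sin (k * x) : ℝ) : ℂ) ^ 2 * g x * hk3
    obtain ⟨x, hx⟩ := hne
    rcases hx with hx | hx
    · exact hx (hall x).1
    · exact hx (hall x).2
  -- the condition
  have h3 := I3 L ⟨hL.le, le_rfl⟩
  have h4 := I4 L ⟨hL.le, le_rfl⟩
  rw [← h3, ← h4] at E0
  have hκ2c : (κ : ℂ) ^ 2 = ((l + m : ℝ) : ℂ) * ((m - l : ℝ) : ℂ) := by exact_mod_cast hAB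
  have hfin : ((κ * k * Real.cos (k * L) + (m ^ 2 - l ^ 2 - v * l) * Real.sin (k * L) : ℝ) : ℂ) *
      (2 * ((l + m : ℝ) : ℂ) * g L) = 0 := by
    have E1 : (κ : ℂ) * (k * (Real.cos (k * L) : ℝ) * f L -
        (v + l + m) * (Real.sin (k * L) : ℝ) * g L) -
        (l + m) * (k * (Real.cos (k * L) : ℝ) * g L -
          (m - v - l) * (Real.sin (k * L) : ℝ) * f L) = 0 := by
      have h0 : (k : ℂ) * ((κ : ℂ) * ((Real.cos (k * L) : ℝ) * f L -
        ((v + l + m) / k : ℝ) * (Real.sin (k * L) : ℝ) * g L) - ((l + m : ℝ) : ℂ) *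
        ((Real.cos (k * L) : ℝ) * g L - ((m - v - l) / k : ℝ) * (Real.sin (k * L) : ℝ) * f L)) = 0 := by
        rw [E0, mul_zero]
      rw [← h0, Complex.ofReal_div, Complex.ofReal_div]
      push_cast
      field_simp
    push_cast at E1 EL hκ2c ⊢
    linear_combination (κ * k * Complex.cos (k * L) + (l + m) * (m - v - l) * Complex.sin (k * L)) * EL -
      (v + l + m) * Complex.sin (k * L) * g L * hκ2c - κ * E1
  have := (mul_eq_zero.1 hfin).resolve_right (by
    refine mul_ne_zero (mul_ne_zero two_ne_zero hAc) hgL)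
  exact_mod_cast this

end Pool.Agent.Q206.Dir
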