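import Pool.Agent.Q206.Dir.Two

namespace Pool.Agent.Q206.Dir

open MeasureTheory Set

/-- `α_⋆(p)^p` for `d = 1` -/
noncomputable def crit (m p : ℝ) : ℝ :=
  m ^ (p - 1) * (p ^ p * (p - 1) ^ (1 - p)) *
    ∫ θ in (-(Real.pi / 2))..(Real.pi / 2), (2 * Real.cos θ ^ 2) ^ (p - 1)

theorem cint {q : ℝ} (hq : 0 ≤ q) (a b : ℝ) :
    IntervalIntegrable (fun θ : ℝ => (2 * Real.cos θ ^ 2) ^ q) volume a b := by
  apply Continuous.intervalIntegrable
  apply Continuous.rpow_const (by fun_prop)
  intro x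
  right; exact hq

theorem I_lower {q : ℝ} (hq : 0 ≤ q) (hq1 : q ≤ 1) :
    Real.pi - 1 ≤ ∫ θ in (-(Real.pi / 2))..(Real.pi / 2), (2 * Real.cos θ ^ 2) ^ q := by
  have hpi := Real.pi_pos
  have h2 : ∀ a b : ℝ, IntervalIntegrable (fun θ : ℝ => 2 * Real.cos θ ^ 2) volume a b := by
    intro a b
    apply Continuous.intervalIntegrable
    fun_prop
  rw [← intervalIntegral.integral_add_adjacent_intervals (cint hq _ (-(Real.pi / 4))) (cint hq _ _),
    ← intervalIntegral.integral_add_adjacent_intervals (cint hq (-(Real.pi / 4)) (Real.pi / 4))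
      (cint hq _ _)]
  have key : ∀ x : ℝ, 0 ≤ x → x ≤ 1 → x ≤ x ^ q := by
    intro x hx hx1
    rcases hx.eq_or_lt with h | h
    · rw [← h]; positivity
    · calc x = x ^ (1:ℝ) := (Real.rpow_one x).symm
        _ ≤ x ^ q := Real.rpow_le_rpow_of_exponent_ge h hx1 hq1
  have half : ∀ θ : ℝ, 2 * Real.cos θ ^ 2 = 1 + Real.cos (2 * θ) := by
    intro θ; rw [Real.cos_sq]; ring
  have hA : Real.pi / 4 - 1 / 2 ≤
      ∫ θ in (-(Real.pi / 2))..(-(Real.pi / 4)), (2 * Real.cos θ ^ 2) ^ q := by
    have h3 : ∫ θ in (-(Real.pi / 2))..(-(Real.pi / 4)), 2 * Real.cos θ ^ 2 =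
        Real.pi / 4 - 1 / 2 := by
      rw [intervalIntegral.integral_const_mul, integral_cos_sq, Real.cos_neg, Real.sin_neg,
        Real.cos_neg, Real.cos_pi_div_two, Real.cos_pi_div_four, Real.sin_pi_div_four]
      have : √2 * √2 = (2:ℝ) := Real.mul_self_sqrt (by norm_num)
      linear_combination (-1 / 4) * this
    rw [← h3]
    apply intervalIntegral.integral_mono_on (by linarith) (h2 _ _) (cint hq _ _)
    intro x hx
    apply key _ (by positivity)
    rw [half]
    have : Real.cos (2 * x) ≤ 0 := by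
      rw [← Real.cos_neg]
      apply Real.cos_nonpos_of_pi_div_two_le_of_le <;> linarith [hx.1, hx.2]
    linarith
  have hC : Real.pi / 4 - 1 / 2 ≤
      ∫ θ in (Real.pi / 4)..(Real.pi / 2), (2 * Real.cos θ ^ 2) ^ q := by
    have h3 : ∫ θ in (Real.pi / 4)..(Real.pi / 2), 2 * Real.cos θ ^ 2 =
        Real.pi / 4 - 1 / 2 := by
      rw [intervalIntegral.integral_const_mul, integral_cos_sq,
        Real.cos_pi_div_two, Real.cos_pi_div_four, Real.sin_pi_div_four]
      have : √2 * √2 = (2:ℝ) := Real.mul_self_sqrt (by norm_num)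
      linear_combination (-1 / 4) * this
    rw [← h3]
    apply intervalIntegral.integral_mono_on (by linarith) (h2 _ _) (cint hq _ _)
    intro x hx
    apply key _ (by positivity)
    rw [half]
    have : Real.cos (2 * x) ≤ 0 := by
      apply Real.cos_nonpos_of_pi_div_two_le_of_le <;> linarith [hx.1, hx.2]
    linarith
  have hB : Real.pi / 2 ≤
      ∫ θ in (-(Real.pi / 4))..(Real.pi / 4), (2 * Real.cos θ ^ 2) ^ q := by
    have h3 : ∫ θ in (-(Real.pi / 4))..(Real.pi / 4), (1:ℝ) = Real.pi / 2 := by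
      rw [intervalIntegral.integral_const]
      simp; ring
    rw [← h3]
    apply intervalIntegral.integral_mono_on (by linarith) (by simp) (cint hq _ _)
    intro x hx
    apply Real.one_le_rpow _ hq
    rw [half]
    have : 0 ≤ Real.cos (2 * x) := by
      apply Real.cos_nonneg_of_mem_Icc
      constructor <;> linarith [hx.1, hx.2]
    linarith
  linarith

theorem ent_lower {q : ℝ} (hq : 0 ≤ q) (hq1 : q ≤ 1) :
    (1 + q) ^ 2 ≤ (1 + q) ^ (1 + q) * q ^ (-q) := by
  rcases hq.eq_or_lt with h | h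
  · rw [← h]; simp
  · have h1 : (1 + q) ^ (1 - q) ≤ 1 + (1 - q) * q :=
      rpow_one_add_le_one_add_mul_self (by linarith) (by linarith) (by linarith)
    have h2 : 1 + (1 - q) * q ≤ q ^ (-q) := by
      rw [Real.rpow_def_of_pos h]
      have h3 := Real.add_one_le_exp (Real.log q * -q)
      have h4 := Real.log_le_sub_one_of_pos h
      nlinarith
    have h5 : (1 + q) ^ 2 = (1 + q) ^ (1 + q) * (1 + q) ^ (1 - q) := by
      rw [← Real.rpow_add (by linarith)]
      norm_num
    rw [h5]
    exact mul_le_mul_of_nonneg_left (h1.trans h2) (by positivity)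

theorem four_le {q : ℝ} (hq : 0 ≤ q) (hq1 : q ≤ 1) : (4:ℝ) ^ q ≤ (1 + q) ^ 2 := by
  have h1 : (1 + 1 : ℝ) ^ q ≤ 1 + q * 1 :=
    rpow_one_add_le_one_add_mul_self (by norm_num) hq hq1
  have h2 : (4:ℝ) ^ q = ((1 + 1 : ℝ) ^ q) ^ 2 := by
    rw [← Real.rpow_natCast, ← Real.rpow_mul (by norm_num), mul_comm, Real.rpow_mul (by norm_num)]
    norm_num
  rw [h2]
  apply pow_le_pow_left₀ (by positivity)
  linarith

theorem integral_well_rpow {v L p : ℝ} (hL : 0 ≤ L) (hp : 0 < p) :
    ∫ x, (well v L x) ^ p = v ^ p * L := by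
  have : (fun x => (well v L x) ^ p) = well (v ^ p) L := by
    funext x
    unfold well
    by_cases hx : x ∈ Ico 0 L
    · rw [indicator_of_mem hx, indicator_of_mem hx]
    · rw [indicator_of_notMem hx, indicator_of_notMem hx, Real.zero_rpow hp.ne']
  rw [this, integral_well _ hL]

theorem memLp_well (v L : ℝ) (p : ENNReal) : MemLp (well v L) p := by
  unfold well
  apply memLp_indicator_const p measurableSet_Ico
  right
  simp

theorem norm_small {m p v : ℝ} (hm : 0 < m) (hp1 : 1 ≤ p) (hp2 : p ≤ 2) (hv : 0 < v)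
    (hv4 : v ≤ 4) :
    ∫ x, (well (m * v) (107 / 200 / m) x) ^ p < crit m p := by
  rw [integral_well_rpow (by positivity) (by linarith)]
  have e1 : (m * v) ^ p * (107 / 200 / m) = m ^ (p - 1) * (v * 107 / 200) * v ^ (p - 1) := by
    rw [Real.mul_rpow hm.le hv.le, Real.rpow_sub_one hm.ne', Real.rpow_sub_one hv.ne']
    field_simp
  rw [e1]
  unfold crit
  have h1 := I_lower (q := p - 1) (by linarith) (by linarith)
  have h2 := ent_lower (q := p - 1) (by linarith) (by linarith)
  have h3 := four_le (q := p - 1) (by linarith) (by linarith)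
  have e2 : 1 + (p - 1) = p := by ring
  have e3 : -(p - 1) = 1 - p := by ring
  rw [e2, e3] at h2
  rw [e2] at h3
  have h4 : v ^ (p - 1) ≤ (4:ℝ) ^ (p - 1) := Real.rpow_le_rpow hv.le hv4 (by linarith)
  have hpi := Real.pi_gt_d2
  rw [mul_assoc, mul_assoc]
  apply mul_lt_mul_of_pos_left _ (by positivity)
  calc v * 107 / 200 * v ^ (p - 1) ≤ 214 / 100 * (p ^ p * (p - 1) ^ (1 - p)) := by
        apply mul_le_mul (by linarith) (h4.trans (h3.trans h2)) (by positivity) (by norm_num)
    _ < (Real.pi - 1) * (p ^ p * (p - 1) ^ (1 - p)) := by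
        apply mul_lt_mul_of_pos_right _ _
        · have := Real.pi_gt_d4
          linarith
        · have : 0 < p ^ 2 := by positivity
          linarith
    _ ≤ (∫ θ in (-(Real.pi / 2))..(Real.pi / 2), (2 * Real.cos θ ^ 2) ^ (p - 1)) *
          (p ^ p * (p - 1) ^ (1 - p)) := by
        apply mul_le_mul_of_nonneg_right h1
        have : 0 < p ^ 2 := by positivity
        linarith
    _ = _ := by ring

end Pool.Agent.Q206.Dir
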