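import Pool.Agent.Q206.Dir.Crit

namespace Pool.Agent.Q206.Dir

open MeasureTheory Set

theorem cos_sq_ge (θ : ℝ) : 1 - θ ^ 2 ≤ Real.cos θ ^ 2 := by
  have h1 : Real.sin θ ^ 2 ≤ θ ^ 2 := by
    rw [sq_le_sq]
    exact Real.abs_sin_le_abs
  have h2 := Real.sin_sq_add_cos_sq θ
  linarith

theorem I_lower2 {q : ℝ} (hq : 1 ≤ q) :
    2 ^ q * (4 / (3 * √q)) ≤
      ∫ θ in (-(Real.pi / 2))..(Real.pi / 2), (2 * Real.cos θ ^ 2) ^ q := by
  have hpi := Real.pi_gt_three
  have hq0 : 0 < q := by linarith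
  have hs : 1 ≤ √q := by rw [Real.one_le_sqrt]; exact hq
  set r := 1 / √q with hr
  have hr0 : 0 < r := by positivity
  have hr1 : r ≤ 1 := by rw [hr, div_le_one (by linarith)]; exact hs
  have hqr : q * r ^ 2 = 1 := by
    rw [hr, div_pow, one_pow, Real.sq_sqrt hq0.le]
    field_simp
  have h1 : ∫ θ in (-r)..r, 2 ^ q * (1 - q * θ ^ 2) = 2 ^ q * (4 / (3 * √q)) := by
    rw [intervalIntegral.integral_const_mul, intervalIntegral.integral_sub (by simp)
      (by apply Continuous.intervalIntegrable; fun_prop),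
      intervalIntegral.integral_const_mul, integral_pow, intervalIntegral.integral_const]
    have e : 4 / (3 * √q) = 4 / 3 * r := by rw [hr]; field_simp
    rw [e]
    congr 1
    simp
    norm_num
    linear_combination (-(2 / 3) * r) * hqr
  rw [← h1]
  have h2 : ∫ θ in (-r)..r, 2 ^ q * (1 - q * θ ^ 2) ≤
      ∫ θ in (-r)..r, (2 * Real.cos θ ^ 2) ^ q := by
    apply intervalIntegral.integral_mono_on (by linarith)
      (by apply Continuous.intervalIntegrable; fun_prop) (cint hq0.le _ _)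
    intro x hx
    rw [Real.mul_rpow (by norm_num) (by positivity)]
    apply mul_le_mul_of_nonneg_left _ (by positivity)
    have hx2 : x ^ 2 ≤ 1 := by
      have : |x| ≤ 1 := abs_le.2 ⟨by linarith [hx.1], by linarith [hx.2]⟩
      have := abs_le.1 this
      nlinarith
    calc 1 - q * x ^ 2 = 1 + q * (-x ^ 2) := by ring
      _ ≤ (1 + (-x ^ 2)) ^ q := one_add_mul_self_le_rpow_one_add (by linarith) hq
      _ ≤ (Real.cos x ^ 2) ^ q := by
          apply Real.rpow_le_rpow (by linarith) _ hq0.le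
          have := cos_sq_ge x
          linarith
  refine h2.trans ?_
  apply intervalIntegral.integral_mono_interval (by linarith) (by linarith) (by linarith)
  · filter_upwards with x
    positivity
  · exact cint hq0.le _ _

theorem ent_lower2 {p : ℝ} (hp : 2 ≤ p) : 2 * p ≤ p ^ p * (p - 1) ^ (1 - p) := by
  have hp0 : 0 < p := by linarith
  have hq0 : 0 < p - 1 := by linarith
  have h1 : 2 ≤ (1 + 1 / (p - 1)) ^ (p - 1) := by
    have := one_add_mul_self_le_rpow_one_add (s := 1 / (p - 1)) (p := p - 1)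
      (by have : 0 < 1 / (p - 1) := by positivity
          linarith) (by linarith)
    have e : (p - 1) * (1 / (p - 1)) = 1 := by field_simp
    rw [e] at this
    linarith
  have e1 : 1 + 1 / (p - 1) = p / (p - 1) := by field_simp; ring
  rw [e1, Real.div_rpow hp0.le hq0.le] at h1
  have e2 : p ^ p = p * p ^ (p - 1) := by
    rw [Real.rpow_sub_one hp0.ne']; field_simp
  have e3 : (p - 1) ^ (1 - p) = ((p - 1) ^ (p - 1))⁻¹ := by
    rw [← Real.rpow_neg hq0.le]; congr 1; ring
  rw [e2, e3]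
  have := mul_le_mul_of_nonneg_left h1 hp0.le
  rw [div_eq_mul_inv] at this
  linarith

theorem norm_small2 {m p v : ℝ} (hm : 0 < m) (hp : 2 ≤ p) (hv : 0 < v) (hv2 : v ≤ 2) :
    ∫ x, (well (m * v) (13 / 5 / m) x) ^ p < crit m p := by
  have hp0 : 0 < p := by linarith
  have hq0 : 0 < p - 1 := by linarith
  rw [integral_well_rpow (by positivity) (by linarith)]
  have e1 : (m * v) ^ p * (13 / 5 / m) = m ^ (p - 1) * (13 / 5 * v ^ p) := by
    rw [Real.mul_rpow hm.le hv.le, Real.rpow_sub_one hm.ne']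
    field_simp
  rw [e1]
  unfold crit
  rw [mul_assoc]
  apply mul_lt_mul_of_pos_left _ (by positivity)
  have h1 := I_lower2 (q := p - 1) (by linarith)
  have h2 := ent_lower2 hp
  have h3 : v ^ p ≤ (2:ℝ) ^ p := Real.rpow_le_rpow hv.le hv2 (by linarith)
  have h4 : (2:ℝ) ^ p = 2 * 2 ^ (p - 1) := by
    rw [Real.rpow_sub_one (by norm_num)]; ring
  have hs : 0 < √(p - 1) := Real.sqrt_pos.2 hq0
  have h5 : 2 ≤ p / √(p - 1) := by
    rw [le_div_iff₀ hs]
    have := sq_nonneg (√(p - 1) - 1)
    have h6 := Real.sq_sqrt hq0.le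
    nlinarith
  calc 13 / 5 * v ^ p ≤ 13 / 5 * 2 ^ p := mul_le_mul_of_nonneg_left h3 (by norm_num)
    _ < 8 / 3 * 2 ^ p := by
        apply mul_lt_mul_of_pos_right (by norm_num) (by positivity)
    _ = 2 * (2 ^ (p - 1) * (4 / 3)) * 2 := by rw [h4]; ring
    _ ≤ 2 * (2 ^ (p - 1) * (4 / 3)) * (p / √(p - 1)) := by
        apply mul_le_mul_of_nonneg_left h5 (by positivity)
    _ = 2 * p * (2 ^ (p - 1) * (4 / (3 * √(p - 1)))) := by field_simp
    _ ≤ _ := mul_le_mul h2 h1 (by positivity) (by positivity)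

theorem mainAll {m p : ℝ} (hm : 0 < m) (hp : 1 ≤ p) : ∃ V W : ℝ → ℝ,
    (∀ x, 0 ≤ V x) ∧ (∃ c : ℝ, 1 < c ∧ ∀ x, W x = c * V x) ∧
    MemLp V (ENNReal.ofReal p) ∧ MemLp W (ENNReal.ofReal p) ∧
    (∫ x, V x ^ p) < crit m p ∧ (∫ x, W x ^ p) < crit m p ∧
    lamD m (fun x => 1 / 2 * V x + 1 / 2 * W x) < 1 / 2 * lamD m V + 1 / 2 * lamD m W := by
  rcases le_total p 2 with hp2 | hp2
  · refine ⟨well (m * (37 / 10)) (107 / 200 / m), well (m * 4) (107 / 200 / m),
      well_nonneg (by positivity), ⟨40 / 37, by norm_num, ?_⟩, memLp_well _ _ _,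
      memLp_well _ _ _, norm_small hm hp hp2 (by norm_num) (by norm_num),
      norm_small hm hp hp2 (by norm_num) (by norm_num), ?_⟩
    · intro x
      rw [well_smul]
      congr 1
      ring
    · have e : (fun x => 1 / 2 * well (m * (37 / 10)) (107 / 200 / m) x +
          1 / 2 * well (m * 4) (107 / 200 / m) x) = well (m * (77 / 20)) (107 / 200 / m) := by
        funext x
        rw [well_smul, well_smul, well_add]
        congr 1
        ring
      rw [e]
      exact concavity3 hm
  · refine ⟨well (m * (5513 / 3612)) (13 / 5 / m), well (m * 2) (13 / 5 / m),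
      well_nonneg (by positivity), ⟨7224 / 5513, by norm_num, ?_⟩, memLp_well _ _ _,
      memLp_well _ _ _, norm_small2 hm hp2 (by norm_num) (by norm_num),
      norm_small2 hm hp2 (by norm_num) (by norm_num), ?_⟩
    · intro x
      rw [well_smul]
      congr 1
      ring
    · have e : (fun x => 1 / 2 * well (m * (5513 / 3612)) (13 / 5 / m) x +
          1 / 2 * well (m * 2) (13 / 5 / m) x) = well (m * (12737 / 7224)) (13 / 5 / m) := by
        funext x
        rw [well_smul, well_smul, well_add]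
        congr 1
        ring
      rw [e]
      exact concavity2 hm

end Pool.Agent.Q206.Dir
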