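import Pool.Agent.Q206.Dir.Suf

namespace Pool.Agent.Q206.Dir

open MeasureTheory Set

theorem well_neg (v L x : ℝ) : well (-v) L x = -(well v L x) := by
  unfold well
  by_cases hx : x ∈ Ico 0 L
  · rw [indicator_of_mem hx, indicator_of_mem hx]
  · rw [indicator_of_notMem hx, indicator_of_notMem hx, neg_zero]

theorem suf {m v L l κ k : ℝ} (hl : l ∈ Ioo (-m) m) (hL : 0 < L)
    (hκ : 0 < κ) (hκ2 : κ ^ 2 = m ^ 2 - l ^ 2) (hk : k ≠ 0) (hk2 : k ^ 2 = (l + v) ^ 2 - m ^ 2)
    (hF : κ * k * Real.cos (k * L) + (m ^ 2 - l ^ 2 - v * l) * Real.sin (k * L) = 0) :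
    l ∈ Eig m (well v L) := by
  have hA : 0 < l + m := by linarith [hl.1]
  set C := Real.cos (k * L) with hC
  set S := Real.sin (k * L) with hS
  have hf : ∀ x, ((pc κ k L (l + m) ((v + l + m) * κ / k) x : ℝ) : ℂ) =
      ((pc κ k L (l + m) ((v + l + m) * κ / k) 0 : ℝ) : ℂ) + ∫ t in (0:ℝ)..x,
        ((well v L t + (l + m) : ℝ) : ℂ) * ((pc κ k L κ ((m - v - l) * (l + m) / k) t : ℝ) : ℂ) := by
    apply pc_int (A' := v + (l + m)) hL (by ring) (by field_simp; ring)
    · field_simp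
      linear_combination (-1) * hk2
    · rw [← hC, ← hS]
      field_simp
      linear_combination (-2 * (l + m)) * hF - (v + l + m) * S * hκ2
    · ring
  have hg : ∀ x, ((pc κ k L κ ((m - v - l) * (l + m) / k) x : ℝ) : ℂ) =
      ((pc κ k L κ ((m - v - l) * (l + m) / k) 0 : ℝ) : ℂ) + ∫ t in (0:ℝ)..x,
        ((well (-v) L t + (m - l) : ℝ) : ℂ) * ((pc κ k L (l + m) ((v + l + m) * κ / k) t : ℝ) : ℂ) := by
    apply pc_int (A' := -v + (m - l)) hL (by linarith) (by field_simp; ring)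
    · field_simp
      linear_combination (-1) * hk2
    · rw [← hC, ← hS]
      field_simp
      linear_combination (-2 * κ) * hF + k * C * hκ2
    · ring
  refine ⟨hl, fun x => ((pc κ k L (l + m) ((v + l + m) * κ / k) x : ℝ) : ℂ),
    fun x => ((pc κ k L κ ((m - v - l) * (l + m) / k) x : ℝ) : ℂ), ⟨?_, ?_, ?_, ?_⟩,
    memLp_pc hκ hL, memLp_pc hκ hL, 0, Or.inl ?_⟩
  · exact Complex.continuous_ofReal.comp (continuous_pc _ _ _ _ _)
  · exact Complex.continuous_ofReal.comp (continuous_pc _ _ _ _ _)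
  · intro x
    rw [hf x]
    simp only [add_assoc]
  · intro x
    rw [hg x]
    simp only [well_neg]
    congr 2
    funext t
    congr 2
    ring
  · show ((pc κ k L (l + m) ((v + l + m) * κ / k) 0 : ℝ) : ℂ) ≠ 0
    rw [pc_left hL le_rfl]
    simp only [mul_zero, Real.exp_zero, mul_one]
    exact_mod_cast hA.ne'

end Pool.Agent.Q206.Dir
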