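import Pool.Agent.Q206.Dir.Exist

namespace Pool.Agent.Q206.Dir

open MeasureTheory Set

theorem eq_zero_of_zero {m v L l : ℝ} {f g : ℝ → ℂ}
    (h : IsSol m (well v L) l f g) (hf0 : f 0 = 0) (hg0 : g 0 = 0) :
    ∀ x, 0 ≤ x → f x = 0 ∧ g x = 0 := by
  intro x hx
  have hc : ContinuousOn (fun y => (f y, g y)) (Icc 0 x) := (h.cf.prodMk h.cg).continuousOn
  have hd : ∀ y ∈ Ico 0 x, HasDerivWithinAt (fun y => (f y, g y))
      (((well v L y + l + m : ℝ) : ℂ) * g y, ((m - well v L y - l : ℝ) : ℂ) * f y) (Ici y) y :=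
    fun y _ => (h.df y).prodMk (h.dg y)
  have hw : ∀ y, |well v L y| ≤ |v| := by
    intro y
    unfold well
    by_cases hy : y ∈ Ico 0 L
    · rw [indicator_of_mem hy]
    · rw [indicator_of_notMem hy, abs_zero]; exact abs_nonneg _
  have hbound : ∀ y ∈ Ico 0 x, ‖((((well v L y + l + m : ℝ) : ℂ) * g y,
      ((m - well v L y - l : ℝ) : ℂ) * f y) : ℂ × ℂ)‖ ≤
        (|v| + |l| + |m|) * ‖((f y, g y) : ℂ × ℂ)‖ + 0 := by
    intro y _
    rw [add_zero, Prod.norm_def, Prod.norm_def]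
    simp only
    have hv := hw y
    apply max_le
    · rw [norm_mul, Complex.norm_real, Real.norm_eq_abs]
      apply mul_le_mul _ (le_max_right _ _) (norm_nonneg _) (by positivity)
      calc |well v L y + l + m| ≤ |well v L y + l| + |m| := abs_add_le _ _
        _ ≤ |well v L y| + |l| + |m| := by gcongr; exact abs_add_le _ _
        _ ≤ _ := by gcongr
    · rw [norm_mul, Complex.norm_real, Real.norm_eq_abs]
      apply mul_le_mul _ (le_max_left _ _) (norm_nonneg _) (by positivity)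
      calc |m - well v L y - l| ≤ |m - well v L y| + |l| := abs_sub _ _
        _ ≤ |m| + |well v L y| + |l| := by gcongr; exact abs_sub _ _
        _ ≤ _ := by linarith
  have hg := norm_le_gronwallBound_of_norm_deriv_right_le (δ := 0) hc hd
    (by simp [hf0, hg0]) hbound x ⟨hx, le_rfl⟩
  rw [gronwallBound_ε0, zero_mul] at hg
  have h0 : ((f x, g x) : ℂ × ℂ) = 0 := norm_le_zero_iff.1 hg
  exact ⟨congrArg Prod.fst h0, congrArg Prod.snd h0⟩

/-- boundary relations of an eigenfunction and the solution on the left -/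
theorem bdry {m v L l κ : ℝ} {f g : ℝ → ℂ} (hL : 0 < L)
    (hκ : 0 < κ) (hκ2 : κ ^ 2 = m ^ 2 - l ^ 2)
    (h : IsSol m (well v L) l f g) (hf : MemLp f 2) (hg : MemLp g 2) :
    ((κ : ℂ) * f 0 - ((l + m : ℝ) : ℂ) * g 0 = 0) ∧
    ((κ : ℂ) * f L + ((l + m : ℝ) : ℂ) * g L = 0) ∧
    (∀ x, x ≤ 0 → ((κ : ℂ) * f x + ((l + m : ℝ) : ℂ) * g x) * (Real.exp (-(κ * x)) : ℝ) =
      (κ : ℂ) * f 0 + ((l + m : ℝ) : ℂ) * g 0) ∧
    (∀ x, x ≤ 0 → ((κ : ℂ) * f x - ((l + m : ℝ) : ℂ) * g x) * (Real.exp (κ * x) : ℝ) =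
      (κ : ℂ) * f 0 - ((l + m : ℝ) : ℂ) * g 0) := by
  have hAB : κ ^ 2 = (l + m) * (m - l) := by rw [hκ2]; ring
  have dfo : ∀ x, (x < 0 ∨ L ≤ x) → HasDerivWithinAt f (((l + m : ℝ) : ℂ) * g x) (Ici x) x := by
    intro x hx
    have := h.df x
    rwa [well_out hx, zero_add] at this
  have dgo : ∀ x, (x < 0 ∨ L ≤ x) → HasDerivWithinAt g (((m - l : ℝ) : ℂ) * f x) (Ici x) x := by
    intro x hx
    have := h.dg x
    rwa [well_out hx, sub_zero] at this
  have L1 : ∀ x, x ≤ 0 → ((κ : ℂ) * f x + ((l + m : ℝ) : ℂ) * g x) * (Real.exp (-(κ * x)) : ℝ) =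
      (κ : ℂ) * f 0 + ((l + m : ℝ) : ℂ) * g 0 := by
    intro x hx
    have := cm1 (a := x) (b := 0) h.cf h.cg (fun y hy => dfo y (Or.inl hy.2))
      (fun y hy => dgo y (Or.inl hy.2)) hAB 0 (by simp [hx])
    rw [← this]; simp
  have L2 : ∀ x, x ≤ 0 → ((κ : ℂ) * f x - ((l + m : ℝ) : ℂ) * g x) * (Real.exp (κ * x) : ℝ) =
      (κ : ℂ) * f 0 - ((l + m : ℝ) : ℂ) * g 0 := by
    intro x hx
    have := cm2 (a := x) (b := 0) h.cf h.cg (fun y hy => dfo y (Or.inl hy.2))
      (fun y hy => dgo y (Or.inl hy.2)) hAB 0 (by simp [hx])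
    rw [← this]; simp
  have R1 : ∀ x, L ≤ x → ((κ : ℂ) * f x + ((l + m : ℝ) : ℂ) * g x) * (Real.exp (-(κ * x)) : ℝ) =
      ((κ : ℂ) * f L + ((l + m : ℝ) : ℂ) * g L) * (Real.exp (-(κ * L)) : ℝ) := by
    intro x hx
    exact cm1 (a := L) (b := x) h.cf h.cg (fun y hy => dfo y (Or.inr hy.1))
      (fun y hy => dgo y (Or.inr hy.1)) hAB x (by simp [hx])
  have hw1 : MemLp (fun x => (κ : ℂ) * f x - ((l + m : ℝ) : ℂ) * g x) 2 :=
    (hf.const_mul _).sub (hg.const_mul _)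
  have hw2 : MemLp (fun x => (κ : ℂ) * f x + ((l + m : ℝ) : ℂ) * g x) 2 :=
    (hf.const_mul _).add (hg.const_mul _)
  refine ⟨?_, ?_, L1, L2⟩
  · by_contra hc
    refine not_bddBelow_left hw1 (norm_pos_iff.2 hc) 0 ?_
    intro x hx
    rw [← L2 x hx, norm_mul, Complex.norm_real, Real.norm_eq_abs, abs_of_pos (Real.exp_pos _)]
    apply mul_le_of_le_one_right (norm_nonneg _)
    rw [Real.exp_le_one_iff]
    exact mul_nonpos_of_nonneg_of_nonpos hκ.le hx
  · by_contra hc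
    have hpos : 0 < ‖((κ : ℂ) * f L + ((l + m : ℝ) : ℂ) * g L) * (Real.exp (-(κ * L)) : ℝ)‖ := by
      rw [norm_pos_iff]
      refine mul_ne_zero hc ?_
      rw [Complex.ofReal_ne_zero]
      exact (Real.exp_pos _).ne'
    refine not_bddBelow_right hw2 hpos L ?_
    intro x hx
    rw [← R1 x hx, norm_mul, Complex.norm_real, Real.norm_eq_abs, abs_of_pos (Real.exp_pos _)]
    apply mul_le_of_le_one_right (norm_nonneg _)
    rw [Real.exp_le_one_iff]
    have : 0 ≤ κ * x := mul_nonneg hκ.le (hL.le.trans hx)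
    linarith

/-- no eigenvalue `l` with `l + v ≤ m` -/
theorem noLow {m v L l : ℝ} (hl : l ∈ Ioo (-m) m) (hL : 0 < L) (hv : 0 ≤ v) (hlow : l + v ≤ m) :
    l ∉ Eig m (well v L) := by
  rintro ⟨_, f, g, h, hf, hg, hne⟩
  have hA : 0 < l + m := by linarith [hl.1]
  have hκ0 : 0 < m ^ 2 - l ^ 2 := by nlinarith [hl.1, hl.2]
  set κ := √(m ^ 2 - l ^ 2) with hκd
  have hκ : 0 < κ := Real.sqrt_pos.2 hκ0
  have hκ2 : κ ^ 2 = m ^ 2 - l ^ 2 := Real.sq_sqrt hκ0.le
  obtain ⟨E0, EL, L1, L2⟩ := bdry hL hκ hκ2 h hf hg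
  have hκc : (κ : ℂ) ≠ 0 := by exact_mod_cast hκ.ne'
  have hAc : ((l + m : ℝ) : ℂ) ≠ 0 := by exact_mod_cast hA.ne'
  -- the monotone quantity
  set P : ℝ → ℝ := fun x => (f x * (starRingEnd ℂ) (g x)).re with hP
  have hPc : Continuous P :=
    Complex.continuous_re.comp (h.cf.mul (Complex.continuous_conj.comp h.cg))
  have hPd : ∀ x ∈ Ico 0 L, HasDerivWithinAt P
      ((v + l + m) * ‖g x‖ ^ 2 + (m - v - l) * ‖f x‖ ^ 2) (Ici x) x := by
    intro x hx
    have h1 := h.df x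
    have h2 := h.dg x
    rw [well_in hx.1 hx.2] at h1 h2
    have h3 : HasDerivWithinAt (fun y => (starRingEnd ℂ) (g y))
        ((starRingEnd ℂ) (((m - v - l : ℝ) : ℂ) * f x)) (Ici x) x :=
      (Complex.conjCLE : ℂ →L[ℝ] ℂ).hasFDerivAt.comp_hasDerivWithinAt x h2
    have h4 := h1.mul h3
    have h5 := Complex.reCLM.hasFDerivAt.comp_hasDerivWithinAt x h4
    refine (h5.congr_deriv ?_)
    simp only [Complex.reCLM_apply, map_mul, Complex.conj_ofReal]
    have e1 : ((v + l + m : ℝ) : ℂ) * g x * (starRingEnd ℂ) (g x) =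
        (((v + l + m) * ‖g x‖ ^ 2 : ℝ) : ℂ) := by
      rw [mul_assoc, Complex.mul_conj, Complex.normSq_eq_norm_sq]; push_cast; ring
    have e2 : f x * (((m - v - l : ℝ) : ℂ) * (starRingEnd ℂ) (f x)) =
        (((m - v - l) * ‖f x‖ ^ 2 : ℝ) : ℂ) := by
      have : f x * (((m - v - l : ℝ) : ℂ) * (starRingEnd ℂ) (f x)) =
        ((m - v - l : ℝ) : ℂ) * (f x * (starRingEnd ℂ) (f x)) := by ring
      rw [this, Complex.mul_conj, Complex.normSq_eq_norm_sq]; push_cast; ring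
    rw [e1, e2, Complex.add_re, Complex.ofReal_re, Complex.ofReal_re]
  have hmono : P 0 ≤ P L := by
    have h1 := image_le_of_deriv_right_le_deriv_boundary (f := fun _ => P 0) (f' := fun _ => 0)
      (B := P) (a := 0) (b := L)
      (B' := fun x => (v + l + m) * ‖g x‖ ^ 2 + (m - v - l) * ‖f x‖ ^ 2)
      continuousOn_const (fun x _ => hasDerivWithinAt_const _ _ _) le_rfl hPc.continuousOn hPd
      (fun x _ => by
        have a1 : 0 ≤ v + l + m := by linarith
        have a2 : 0 ≤ m - v - l := by linarith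
        positivity)
    exact h1 ⟨hL.le, le_rfl⟩
  have hP0 : P 0 = (l + m) / κ * ‖g 0‖ ^ 2 := by
    have e : f 0 = (((l + m) / κ : ℝ) : ℂ) * g 0 := by
      push_cast
      field_simp
      push_cast at E0
      linear_combination E0
    simp only [hP]
    rw [e, mul_assoc, Complex.mul_conj, Complex.normSq_eq_norm_sq]
    rw [← Complex.ofReal_mul, Complex.ofReal_re]
  have hPL : P L = -((l + m) / κ * ‖g L‖ ^ 2) := by
    have e : f L = ((-((l + m) / κ) : ℝ) : ℂ) * g L := by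
      push_cast
      field_simp
      push_cast at EL
      linear_combination EL
    simp only [hP]
    rw [e, mul_assoc, Complex.mul_conj, Complex.normSq_eq_norm_sq]
    rw [← Complex.ofReal_mul, Complex.ofReal_re]
    ring
  have hg0 : g 0 = 0 := by
    have h1 : 0 ≤ (l + m) / κ * ‖g L‖ ^ 2 := by positivity
    have h2 : (l + m) / κ * ‖g 0‖ ^ 2 ≤ 0 := by linarith
    have h3 : 0 < (l + m) / κ := by positivity
    have h4 : ‖g 0‖ ^ 2 ≤ 0 := by
      by_contra hc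
      have := mul_pos h3 (not_le.1 hc)
      linarith
    have h5 : ‖g 0‖ = 0 := by nlinarith [norm_nonneg (g 0)]
    exact norm_eq_zero.1 h5
  have hf0 : f 0 = 0 := by
    rw [hg0, mul_zero, sub_zero] at E0
    exact (mul_eq_zero.1 E0).resolve_left hκc
  have hexp : ∀ y : ℝ, ((Real.exp y : ℝ) : ℂ) ≠ 0 := by
    intro y; exact_mod_cast (Real.exp_pos y).ne'
  obtain ⟨x, hx⟩ := hne
  have hx0 : f x = 0 ∧ g x = 0 := by
    rcases le_total 0 x with hxx | hxx
    · exact eq_zero_of_zero h hf0 hg0 x hxx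
    · have h1 := L1 x hxx
      have h2 := L2 x hxx
      rw [hf0, hg0, mul_zero, mul_zero, add_zero] at h1
      rw [hf0, hg0, mul_zero, mul_zero, sub_zero] at h2
      have h3 := (mul_eq_zero.1 h1).resolve_right (hexp _)
      have h4 := (mul_eq_zero.1 h2).resolve_right (hexp _)
      constructor
      · have : (κ : ℂ) * f x = 0 := by linear_combination (h3 + h4) / 2
        exact (mul_eq_zero.1 this).resolve_left hκc
      · have : ((l + m : ℝ) : ℂ) * g x = 0 := by linear_combination (h3 - h4) / 2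
        exact (mul_eq_zero.1 this).resolve_left hAc
  rcases hx with hx | hx
  · exact hx hx0.1
  · exact hx hx0.2

end Pool.Agent.Q206.Dir
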