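import Pool.Agent.Q206.Dir.Exist

namespace Pool.Agent.Q206.Dir

open MeasureTheory Set

noncomputable def K (s μ : ℝ) : ℝ := √((s + μ / 1000) ^ 2 - (1 / 1000) ^ 2)

noncomputable def Fd (s μ : ℝ) : ℝ :=
  √(1 - μ ^ 2) * Real.cos (K s μ) + ((1 - μ ^ 2) / 1000 - s * μ) * Real.sin (K s μ) / K s μ

theorem K_lower {s μ : ℝ} (hs : 3 / 2 ≤ s) (h1 : -1 ≤ μ) : s - 2 / 1000 ≤ K s μ := by
  unfold K
  apply Real.le_sqrt_of_sq_le
  nlinarith

theorem K_upper {s μ : ℝ} (hs : 3 / 2 ≤ s) (h1 : -1 ≤ μ) (h2 : μ ≤ 1) : K s μ ≤ s + 1 / 1000 := by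
  unfold K
  rw [Real.sqrt_le_left (by linarith)]
  nlinarith

theorem K_pos {s μ : ℝ} (hs : 3 / 2 ≤ s) (h1 : -1 ≤ μ) : 0 < K s μ := by
  have := K_lower hs h1; linarith

theorem K_sq {s μ : ℝ} (hs : 3 / 2 ≤ s) (h1 : -1 ≤ μ) :
    K s μ ^ 2 = (s + μ / 1000) ^ 2 - (1 / 1000) ^ 2 := by
  unfold K
  apply Real.sq_sqrt
  nlinarith

theorem Fd_est {s μ : ℝ} (hs : 3 / 2 ≤ s) (h1 : -1 ≤ μ) (h2 : μ ≤ 1) :
    |Fd s μ - (√(1 - μ ^ 2) * Real.cos s - μ * Real.sin s)| ≤ 7 / 1000 := by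
  have hl := K_lower hs h1
  have hu := K_upper hs h1 h2
  have hK1 : 1 ≤ K s μ := by linarith
  have hKpos : 0 < K s μ := by linarith
  have hKs : |K s μ - s| ≤ 2 / 1000 := by rw [abs_le]; constructor <;> linarith
  have hμ : |μ| ≤ 1 := abs_le.2 ⟨h1, h2⟩
  have hμ2 : 0 ≤ 1 - μ ^ 2 := by nlinarith
  have hr : |√(1 - μ ^ 2)| ≤ 1 := by
    rw [abs_of_nonneg (Real.sqrt_nonneg _), Real.sqrt_le_one]
    nlinarith
  have e : Fd s μ - (√(1 - μ ^ 2) * Real.cos s - μ * Real.sin s) =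
      √(1 - μ ^ 2) * (Real.cos (K s μ) - Real.cos s) +
      ((1 - μ ^ 2) / 1000 + μ * (K s μ - s)) / K s μ * Real.sin (K s μ) -
      μ * (Real.sin (K s μ) - Real.sin s) := by
    unfold Fd
    field_simp
    ring
  rw [e]
  have b1 : |√(1 - μ ^ 2) * (Real.cos (K s μ) - Real.cos s)| ≤ 2 / 1000 := by
    rw [abs_mul]
    have := Real.abs_cos_sub_cos_le (K s μ) s
    calc _ ≤ 1 * |K s μ - s| := mul_le_mul hr this (abs_nonneg _) zero_le_one
      _ ≤ 2 / 1000 := by linarith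
  have b3 : |μ * (Real.sin (K s μ) - Real.sin s)| ≤ 2 / 1000 := by
    rw [abs_mul]
    have := Real.abs_sin_sub_sin_le (K s μ) s
    calc _ ≤ 1 * |K s μ - s| := mul_le_mul hμ this (abs_nonneg _) zero_le_one
      _ ≤ 2 / 1000 := by linarith
  have b2 : |((1 - μ ^ 2) / 1000 + μ * (K s μ - s)) / K s μ * Real.sin (K s μ)| ≤ 3 / 1000 := by
    rw [abs_mul, abs_div, abs_of_pos hKpos]
    have c1 : |(1 - μ ^ 2) / 1000 + μ * (K s μ - s)| ≤ 3 / 1000 := by
      refine (abs_add_le _ _).trans ?_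
      have d1 : |(1 - μ ^ 2) / 1000| ≤ 1 / 1000 := by
        rw [abs_of_nonneg (by positivity)]
        have := sq_nonneg μ
        linarith
      have d2 : |μ * (K s μ - s)| ≤ 2 / 1000 := by
        rw [abs_mul]
        calc _ ≤ 1 * (2 / 1000) := mul_le_mul hμ hKs (abs_nonneg _) zero_le_one
          _ = 2 / 1000 := by norm_num
      linarith
    have c2 : |(1 - μ ^ 2) / 1000 + μ * (K s μ - s)| / K s μ ≤ 3 / 1000 := by
      rw [div_le_iff₀ hKpos]
      nlinarith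
    calc |(1 - μ ^ 2) / 1000 + μ * (K s μ - s)| / K s μ * |Real.sin (K s μ)| ≤ 3 / 1000 * 1 :=
          mul_le_mul c2 (Real.abs_sin_le_one _) (abs_nonneg _) (by norm_num)
      _ = 3 / 1000 := by norm_num
  rw [abs_le] at b1 b2 b3 ⊢
  constructor <;> linarith [b1.1, b1.2, b2.1, b2.2, b3.1, b3.2]

theorem mem_iff {m s μ : ℝ} (hm : 0 < m) (hs : 3 / 2 ≤ s) (h1 : -1 < μ) (h2 : μ < 1) :
    m * μ ∈ Eig m (well (s * (1000 * m)) (1 / (1000 * m))) ↔ Fd s μ = 0 := by
  have hμ2 : 0 < 1 - μ ^ 2 := by nlinarith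
  have hK := K_pos hs h1.le
  have hl : m * μ ∈ Ioo (-m) m := ⟨by nlinarith, by nlinarith⟩
  have hL : 0 < 1 / (1000 * m) := by positivity
  have hκ : 0 < m * √(1 - μ ^ 2) := by positivity
  have hκ2 : (m * √(1 - μ ^ 2)) ^ 2 = m ^ 2 - (m * μ) ^ 2 := by
    rw [mul_pow, Real.sq_sqrt hμ2.le]; ring
  have hk : 1000 * m * K s μ ≠ 0 := by positivity
  have hk2 : (1000 * m * K s μ) ^ 2 = (m * μ + s * (1000 * m)) ^ 2 - m ^ 2 := by
    rw [mul_pow, K_sq hs h1.le]; ring
  have hkL : 1000 * m * K s μ * (1 / (1000 * m)) = K s μ := by field_simp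
  have hF : m * √(1 - μ ^ 2) * (1000 * m * K s μ) *
      Real.cos (1000 * m * K s μ * (1 / (1000 * m))) +
      (m ^ 2 - (m * μ) ^ 2 - s * (1000 * m) * (m * μ)) *
      Real.sin (1000 * m * K s μ * (1 / (1000 * m))) = 1000 * m ^ 2 * K s μ * Fd s μ := by
    rw [hkL]
    unfold Fd
    field_simp
  constructor
  · rintro ⟨_, f, g, hsol, hf, hg, hne⟩
    have := nec hl hL hκ hκ2 hk hk2 hsol hf hg hne
    rw [hF] at this
    have hne : 1000 * m ^ 2 * K s μ ≠ 0 := by positivity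
    exact (mul_eq_zero.1 this).resolve_left hne
  · intro h
    apply suf hl hL hκ hκ2 hk hk2
    rw [hF, h, mul_zero]

theorem Eig_lower {m s c : ℝ} (hm : 0 < m) (hs : 3 / 2 ≤ s) (hc : c ≤ 1)
    (h : ∀ μ, -1 < μ → μ < c → 7 / 1000 < |√(1 - μ ^ 2) * Real.cos s - μ * Real.sin s|) :
    m * c ≤ lamD m (well (s * (1000 * m)) (1 / (1000 * m))) := by
  unfold lamD
  apply le_csInf ⟨m, mem_insert _ _⟩
  intro l hl
  rcases mem_insert_iff.1 hl with hl | hl
  · rw [hl]; nlinarith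
  · have hI := hl.1
    have e : l = m * (l / m) := by field_simp
    have h1 : -1 < l / m := by rw [lt_div_iff₀ hm]; linarith [hI.1]
    have h2 : l / m < 1 := by rw [div_lt_iff₀ hm]; linarith [hI.2]
    rw [e] at hl
    have h0 := (mem_iff hm hs h1 h2).1 hl
    have h3 := Fd_est hs h1.le h2.le
    rw [h0, zero_sub, abs_neg] at h3
    have h4 : c ≤ l / m := by
      by_contra hcon
      have := h (l / m) h1 (not_le.1 hcon)
      linarith
    rw [e]
    exact mul_le_mul_of_nonneg_left h4 hm.le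

theorem bdd (m : ℝ) (hm : 0 < m) (V : ℝ → ℝ) : BddBelow (insert m (Eig m V)) := by
  refine ⟨-m, ?_⟩
  intro l hl
  rcases mem_insert_iff.1 hl with hl | hl
  · rw [hl]; linarith
  · exact hl.1.1.le

theorem lam1 {m : ℝ} (hm : 0 < m) :
    m * (-(7 / 1000)) ≤ lamD m (well (Real.pi / 2 * (1000 * m)) (1 / (1000 * m))) := by
  have hpi := Real.pi_gt_three
  apply Eig_lower hm (by linarith) (by norm_num)
  intro μ h1 h2
  rw [Real.cos_pi_div_two, Real.sin_pi_div_two, mul_zero, mul_one, zero_sub, lt_abs]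
  left; linarith

theorem sqrt3_lt : √3 < 17321 / 10000 := by
  rw [Real.sqrt_lt' (by norm_num)]; norm_num

theorem sqrt3_gt : 17 / 10 < √3 := by
  rw [Real.lt_sqrt (by norm_num)]; norm_num

theorem lam2 {m : ℝ} (hm : 0 < m) :
    m * (-(88 / 100)) ≤ lamD m (well (5 * Real.pi / 6 * (1000 * m)) (1 / (1000 * m))) := by
  have hpi := Real.pi_gt_three
  apply Eig_lower hm (by linarith) (by norm_num)
  intro μ h1 h2
  have e : 5 * Real.pi / 6 = Real.pi - Real.pi / 6 := by ring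
  rw [e, Real.cos_pi_sub, Real.sin_pi_sub, Real.cos_pi_div_six, Real.sin_pi_div_six, lt_abs]
  left
  have h3 : √(1 - μ ^ 2) ≤ 475 / 1000 := by
    rw [Real.sqrt_le_left (by norm_num)]
    nlinarith
  have h4 := Real.sqrt_nonneg (1 - μ ^ 2)
  have h5 := sqrt3_lt
  have h6 := Real.sqrt_nonneg 3
  nlinarith

theorem lam3 {m : ℝ} (hm : 0 < m) :
    lamD m (well (2 * Real.pi / 3 * (1000 * m)) (1 / (1000 * m))) < m * (-(45 / 100)) := by
  have hpi := Real.pi_gt_three
  have hs : 3 / 2 ≤ 2 * Real.pi / 3 := by linarith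
  have e : 2 * Real.pi / 3 = Real.pi - Real.pi / 3 := by ring
  have hcos : Real.cos (2 * Real.pi / 3) = -(1 / 2) := by
    rw [e, Real.cos_pi_sub, Real.cos_pi_div_three]
  have hsin : Real.sin (2 * Real.pi / 3) = √3 / 2 := by
    rw [e, Real.sin_pi_sub, Real.sin_pi_div_three]
  have ha := Fd_est (s := 2 * Real.pi / 3) (μ := -1) hs le_rfl (by norm_num)
  have hb := Fd_est (s := 2 * Real.pi / 3) (μ := -(45 / 100)) hs (by norm_num) (by norm_num)
  rw [hcos, hsin] at ha hb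
  have h5 := sqrt3_lt
  have h6 := sqrt3_gt
  have hFa : 0 < Fd (2 * Real.pi / 3) (-1) := by
    have e1 : √(1 - (-1 : ℝ) ^ 2) = 0 := by norm_num
    rw [e1, abs_le] at ha
    linarith [ha.1]
  have hFb : Fd (2 * Real.pi / 3) (-(45 / 100)) < 0 := by
    have e1 : 893 / 1000 ≤ √(1 - (-(45 / 100) : ℝ) ^ 2) := by
      apply Real.le_sqrt_of_sq_le; norm_num
    rw [abs_le] at hb
    linarith [hb.2]
  have hcont : ContinuousOn (Fd (2 * Real.pi / 3)) (Icc (-1) (-(45 / 100))) := by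
    have hKc : Continuous (K (2 * Real.pi / 3)) := by unfold K; fun_prop
    unfold Fd
    apply ContinuousOn.add
    · apply Continuous.continuousOn
      fun_prop
    · apply ContinuousOn.div
      · apply Continuous.continuousOn
        fun_prop
      · exact hKc.continuousOn
      · intro x hx
        exact (K_pos hs hx.1).ne'
  obtain ⟨μ, hμ, h0⟩ := intermediate_value_Icc' (by norm_num) hcont ⟨hFb.le, hFa.le⟩
  have hμ1 : -1 < μ := by
    rcases hμ.1.lt_or_eq with h | h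
    · exact h
    · rw [← h] at h0; rw [h0] at hFa; exact absurd hFa (lt_irrefl _)
  have hμ2 : μ < -(45 / 100) := by
    rcases hμ.2.lt_or_eq with h | h
    · exact h
    · rw [h] at h0; rw [h0] at hFb; exact absurd hFb (lt_irrefl _)
  have hmem := (mem_iff hm hs hμ1 (by linarith)).2 h0
  refine lt_of_le_of_lt (csInf_le (bdd m hm _) (mem_insert_of_mem _ hmem)) ?_
  exact mul_lt_mul_of_pos_left hμ2 hm

theorem well_smul (c v L x : ℝ) : c * well v L x = well (c * v) L x := by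
  unfold well
  by_cases hx : x ∈ Ico 0 L
  · rw [indicator_of_mem hx, indicator_of_mem hx]
  · rw [indicator_of_notMem hx, indicator_of_notMem hx, mul_zero]

theorem well_add (v v' L x : ℝ) : well v L x + well v' L x = well (v + v') L x := by
  unfold well
  by_cases hx : x ∈ Ico 0 L
  · rw [indicator_of_mem hx, indicator_of_mem hx, indicator_of_mem hx]
  · rw [indicator_of_notMem hx, indicator_of_notMem hx, indicator_of_notMem hx, add_zero]

theorem well_nonneg {v L : ℝ} (hv : 0 ≤ v) (x : ℝ) : 0 ≤ well v L x :=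
  indicator_nonneg (fun _ _ => hv) x

theorem main {m : ℝ} (hm : 0 < m) : ∃ V W : ℝ → ℝ,
    (∀ x, 0 ≤ V x) ∧ (∀ x, W x = 5 / 3 * V x) ∧ Integrable V ∧ Integrable W ∧
    (∫ x, V x) = Real.pi / 2 ∧ (∫ x, W x) = 5 * Real.pi / 6 ∧
    lamD m (fun x => 1 / 2 * V x + 1 / 2 * W x) < 1 / 2 * lamD m V + 1 / 2 * lamD m W := by
  have hpi := Real.pi_pos
  refine ⟨well (Real.pi / 2 * (1000 * m)) (1 / (1000 * m)),
    well (5 * Real.pi / 6 * (1000 * m)) (1 / (1000 * m)), well_nonneg (by positivity), ?_,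
    integrable_well _ _, integrable_well _ _, ?_, ?_, ?_⟩
  · intro x
    rw [well_smul]
    congr 1
    ring
  · rw [integral_well _ (by positivity)]; field_simp
  · rw [integral_well _ (by positivity)]; field_simp
  · have e : (fun x => 1 / 2 * well (Real.pi / 2 * (1000 * m)) (1 / (1000 * m)) x +
        1 / 2 * well (5 * Real.pi / 6 * (1000 * m)) (1 / (1000 * m)) x) =
        well (2 * Real.pi / 3 * (1000 * m)) (1 / (1000 * m)) := by
      funext x
      rw [well_smul, well_smul, well_add]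
      congr 1
      ring
    rw [e]
    have h1 := lam1 hm
    have h2 := lam2 hm
    have h3 := lam3 hm
    nlinarith

end Pool.Agent.Q206.Dir
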