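import Pool.Agent.Q206.Dir.Basic

namespace Pool.Agent.Q206.Dir

open MeasureTheory Set

/-- if `f` is continuous and has right derivative `0` on `[a, b)` then it is constant on `[a, b]` -/
theorem const_of_right {f : ℝ → ℂ} {a b : ℝ} (hc : Continuous f)
    (hd : ∀ x ∈ Ico a b, HasDerivWithinAt f 0 (Ici x) x) : ∀ x ∈ Icc a b, f x = f a :=
  constant_of_has_deriv_right_zero hc.continuousOn hd

section
variable {f g : ℝ → ℂ} {A B r : ℝ} {a b : ℝ}

/-- first constant of motion (hyperbolic case) -/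
theorem cm1 (cf : Continuous f) (cg : Continuous g)
    (df : ∀ x ∈ Ico a b, HasDerivWithinAt f ((A : ℂ) * g x) (Ici x) x)
    (dg : ∀ x ∈ Ico a b, HasDerivWithinAt g ((B : ℂ) * f x) (Ici x) x) (hr : r ^ 2 = A * B) :
    ∀ x ∈ Icc a b, ((r : ℂ) * f x + A * g x) * (Real.exp (-(r * x)) : ℝ) =
      ((r : ℂ) * f a + A * g a) * (Real.exp (-(r * a)) : ℝ) := by
  apply const_of_right
    (f := fun x => ((r : ℂ) * f x + A * g x) * (Real.exp (-(r * x)) : ℝ)) (by fun_prop)
  intro x hx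
  have e1 : HasDerivAt (fun x : ℝ => Real.exp (-(r * x))) (Real.exp (-(r * x)) * -(r * 1)) x :=
    (((hasDerivAt_id x).const_mul r).neg).exp
  have e2 : HasDerivAt (fun x : ℝ => ((Real.exp (-(r * x)) : ℝ) : ℂ))
      ((Real.exp (-(r * x)) * -(r * 1) : ℝ) : ℂ) x := e1.ofReal_comp
  refine ((((df x hx).const_mul (r : ℂ)).add ((dg x hx).const_mul (A : ℂ))).mul
    e2.hasDerivWithinAt).congr_deriv ?_
  have hr2 : (r : ℂ) ^ 2 = A * B := by exact_mod_cast hr
  simp only [Pi.add_apply]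
  push_cast
  linear_combination (-(f x) * Complex.exp (-(r * x))) * hr2

/-- second constant of motion (hyperbolic case) -/
theorem cm2 (cf : Continuous f) (cg : Continuous g)
    (df : ∀ x ∈ Ico a b, HasDerivWithinAt f ((A : ℂ) * g x) (Ici x) x)
    (dg : ∀ x ∈ Ico a b, HasDerivWithinAt g ((B : ℂ) * f x) (Ici x) x) (hr : r ^ 2 = A * B) :
    ∀ x ∈ Icc a b, ((r : ℂ) * f x - A * g x) * (Real.exp (r * x) : ℝ) =
      ((r : ℂ) * f a - A * g a) * (Real.exp (r * a) : ℝ) := by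
  have := cm1 (f := f) (g := g) (A := A) (B := B) (r := -r) cf cg df dg (by rw [← hr]; ring)
  intro x hx
  have h := this x hx
  simp only [neg_mul, neg_neg] at h
  push_cast at h ⊢
  linear_combination -h

/-- third constant of motion (trigonometric case) -/
theorem cm3 {k : ℝ} (cf : Continuous f) (cg : Continuous g)
    (df : ∀ x ∈ Ico a b, HasDerivWithinAt f ((A : ℂ) * g x) (Ici x) x)
    (dg : ∀ x ∈ Ico a b, HasDerivWithinAt g ((B : ℂ) * f x) (Ici x) x) (hk0 : k ≠ 0)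
    (hk : k ^ 2 = -(A * B)) :
    ∀ x ∈ Icc a b, (Real.cos (k * (x - a)) : ℝ) * f x - (A / k : ℝ) * (Real.sin (k * (x - a)) : ℝ) * g x =
      f a := by
  have h := const_of_right
    (f := fun x => ((Real.cos (k * (x - a)) : ℝ) : ℂ) * f x -
      (A / k : ℝ) * ((Real.sin (k * (x - a)) : ℝ) : ℂ) * g x) (a := a) (b := b) (by fun_prop) ?_
  · intro x hx
    have h1 := h x hx
    simp only [sub_self, mul_zero, Real.cos_zero, Real.sin_zero] at h1
    rw [h1]
    simp
  intro x hx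
  have e0 : HasDerivAt (fun x : ℝ => k * (x - a)) (k * 1) x :=
    ((hasDerivAt_id x).sub_const a).const_mul k
  have e1 : HasDerivAt (fun x : ℝ => ((Real.cos (k * (x - a)) : ℝ) : ℂ))
      ((-Real.sin (k * (x - a)) * (k * 1) : ℝ) : ℂ) x := (e0.cos).ofReal_comp
  have e2 : HasDerivAt (fun x : ℝ => ((Real.sin (k * (x - a)) : ℝ) : ℂ))
      ((Real.cos (k * (x - a)) * (k * 1) : ℝ) : ℂ) x := (e0.sin).ofReal_comp
  refine ((e1.hasDerivWithinAt.mul (df x hx)).sub
    ((e2.hasDerivWithinAt.const_mul ((A / k : ℝ) : ℂ)).mul (dg x hx))).congr_deriv ?_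
  have hk2 : (k : ℂ) ^ 2 = -(A * B) := by exact_mod_cast hk
  have hk1 : (k : ℂ) ≠ 0 := by exact_mod_cast hk0
  push_cast
  field_simp
  linear_combination (-(f x) * Complex.sin (k * (x - a))) * hk2

/-- fourth constant of motion (trigonometric case) -/
theorem cm4 {k : ℝ} (cf : Continuous f) (cg : Continuous g)
    (df : ∀ x ∈ Ico a b, HasDerivWithinAt f ((A : ℂ) * g x) (Ici x) x)
    (dg : ∀ x ∈ Ico a b, HasDerivWithinAt g ((B : ℂ) * f x) (Ici x) x) (hk0 : k ≠ 0)
    (hk : k ^ 2 = -(A * B)) :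
    ∀ x ∈ Icc a b, (Real.cos (k * (x - a)) : ℝ) * g x - (B / k : ℝ) * (Real.sin (k * (x - a)) : ℝ) * f x =
      g a :=
  cm3 (f := g) (g := f) (A := B) (B := A) cg cf dg df hk0 (by rw [hk]; ring)

end

/-- an `L²` function is not bounded below in norm on a half line -/
theorem not_bddBelow_left {w : ℝ → ℂ} (hw : MemLp w 2) {c : ℝ} (hc : 0 < c) (a : ℝ)
    (h : ∀ x ≤ a, c ≤ ‖w x‖) : False := by
  have h1 := hw.eLpNorm_lt_top
  have h2 := mul_meas_ge_le_pow_eLpNorm' (μ := volume) (p := 2) (by simp) (by simp) hw.1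
    (ENNReal.ofReal c)
  have h3 : volume {x | ENNReal.ofReal c ≤ ‖w x‖ₑ} = ⊤ := by
    apply eq_top_iff.2
    calc (⊤ : ENNReal) = volume (Iic a) := by simp
      _ ≤ _ := by
          apply measure_mono
          intro x hx
          rw [mem_ofPred_eq, ← ofReal_norm]
          exact ENNReal.ofReal_le_ofReal (h x hx)
  rw [h3] at h2
  have h4 : ENNReal.ofReal c ^ (2 : ENNReal).toReal ≠ 0 := by
    simp [hc]
  rw [ENNReal.mul_top h4] at h2
  have h5 : eLpNorm w 2 volume ^ (2 : ENNReal).toReal ≠ ⊤ :=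
    ENNReal.rpow_ne_top_of_nonneg (by simp) h1.ne
  exact h5 (top_le_iff.1 h2)

theorem not_bddBelow_right {w : ℝ → ℂ} (hw : MemLp w 2) {c : ℝ} (hc : 0 < c) (a : ℝ)
    (h : ∀ x, a ≤ x → c ≤ ‖w x‖) : False := by
  have h1 := hw.eLpNorm_lt_top
  have h2 := mul_meas_ge_le_pow_eLpNorm' (μ := volume) (p := 2) (by simp) (by simp) hw.1
    (ENNReal.ofReal c)
  have h3 : volume {x | ENNReal.ofReal c ≤ ‖w x‖ₑ} = ⊤ := by
    apply eq_top_iff.2
    calc (⊤ : ENNReal) = volume (Ici a) := by simp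
      _ ≤ _ := by
          apply measure_mono
          intro x hx
          rw [mem_ofPred_eq, ← ofReal_norm]
          exact ENNReal.ofReal_le_ofReal (h x hx)
  rw [h3] at h2
  have h4 : ENNReal.ofReal c ^ (2 : ENNReal).toReal ≠ 0 := by
    simp [hc]
  rw [ENNReal.mul_top h4] at h2
  have h5 : eLpNorm w 2 volume ^ (2 : ENNReal).toReal ≠ ⊤ :=
    ENNReal.rpow_ne_top_of_nonneg (by simp) h1.ne
  exact h5 (top_le_iff.1 h2)

end Pool.Agent.Q206.Dir
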