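import Pool.Agent.Q206.Dir.Cond

namespace Pool.Agent.Q206.Dir

open MeasureTheory Set

/-- cutoff of the argument to `[0, L]` -/
noncomputable def cl (L x : ℝ) : ℝ := max 0 (min x L)

/-- the decaying factor -/
noncomputable def dec (κ L x : ℝ) : ℝ := Real.exp (κ * min x 0 - κ * max (x - L) 0)

/-- the general piece: constants `a, b` give `a cos(k x) + b sin(k x)` on `[0, L]`, continued by
exponentials -/
noncomputable def pc (κ k L a b x : ℝ) : ℝ :=
  (a * Real.cos (k * cl L x) + b * Real.sin (k * cl L x)) * dec κ L x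

theorem continuous_pc (κ k L a b : ℝ) : Continuous (pc κ k L a b) := by
  unfold pc cl dec; fun_prop

theorem pc_left {κ k L a b x : ℝ} (hL : 0 < L) (hx : x ≤ 0) :
    pc κ k L a b x = a * Real.exp (κ * x) := by
  unfold pc cl dec
  rw [min_eq_left (hx.trans hL.le), max_eq_left hx, min_eq_left hx, max_eq_right (by linarith)]
  simp

theorem pc_mid {κ k L a b x : ℝ} (h0 : 0 ≤ x) (h1 : x ≤ L) :
    pc κ k L a b x = a * Real.cos (k * x) + b * Real.sin (k * x) := by
  unfold pc cl dec
  rw [min_eq_left h1, max_eq_right h0, min_eq_right h0, max_eq_right (by linarith)]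
  simp

theorem pc_right {κ k L a b x : ℝ} (hL : 0 < L) (hx : L ≤ x) :
    pc κ k L a b x = (a * Real.cos (k * L) + b * Real.sin (k * L)) * Real.exp (-κ * (x - L)) := by
  unfold pc cl dec
  rw [min_eq_right hx, max_eq_right hL.le, min_eq_right (hL.le.trans hx), max_eq_left (by linarith)]
  congr 2; ring

theorem dec_le {κ L : ℝ} (hκ : 0 < κ) (hL : 0 < L) (x : ℝ) :
    dec κ L x ≤ Real.exp (κ * L) * Real.exp (-κ * |x|) := by
  unfold dec
  rw [← Real.exp_add]
  apply Real.exp_le_exp.2
  rcases le_total x 0 with h | h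
  · rw [min_eq_left h, max_eq_right (by linarith), abs_of_nonpos h]
    nlinarith
  · rw [min_eq_right h, abs_of_nonneg h]
    rcases le_total x L with h2 | h2
    · rw [max_eq_right (by linarith)]; nlinarith
    · rw [max_eq_left (by linarith)]; nlinarith

theorem dec_pos (κ L x : ℝ) : 0 < dec κ L x := Real.exp_pos _

theorem integrable_exp_abs {c : ℝ} (hc : 0 < c) : Integrable fun x : ℝ => Real.exp (-c * |x|) := by
  rw [← integrableOn_univ, ← Iic_union_Ioi (a := (0:ℝ))]
  apply IntegrableOn.union
  · refine (integrableOn_exp_mul_Iic hc 0).congr_fun ?_ measurableSet_Iic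
    intro x hx
    simp only
    rw [abs_of_nonpos hx]; ring_nf
  · refine (exp_neg_integrableOn_Ioi 0 hc).congr_fun ?_ measurableSet_Ioi
    intro x hx
    simp only
    rw [abs_of_pos hx]

theorem memLp_pc {κ k L a b : ℝ} (hκ : 0 < κ) (hL : 0 < L) :
    MemLp (fun x => ((pc κ k L a b x : ℝ) : ℂ)) 2 := by
  have hc : Continuous fun x => ((pc κ k L a b x : ℝ) : ℂ) :=
    Complex.continuous_ofReal.comp (continuous_pc κ k L a b)
  rw [memLp_two_iff_integrable_sq_norm hc.aestronglyMeasurable]
  refine Integrable.mono' ((integrable_exp_abs (c := 2 * κ) (by positivity)).const_mul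
    (((|a| + |b|) * Real.exp (κ * L)) ^ 2)) (hc.norm.pow 2).aestronglyMeasurable
    (Filter.Eventually.of_forall fun x => ?_)
  have h1 : |pc κ k L a b x| ≤ (|a| + |b|) * (Real.exp (κ * L) * Real.exp (-κ * |x|)) := by
    unfold pc
    rw [abs_mul, abs_of_pos (dec_pos κ L x)]
    apply mul_le_mul _ (dec_le hκ hL x) (dec_pos κ L x).le (by positivity)
    refine (abs_add_le _ _).trans ?_
    rw [abs_mul, abs_mul]
    apply add_le_add
    · exact mul_le_of_le_one_right (abs_nonneg _) (Real.abs_cos_le_one _)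
    · exact mul_le_of_le_one_right (abs_nonneg _) (Real.abs_sin_le_one _)
  simp only [Complex.norm_real, Real.norm_eq_abs, abs_pow, abs_abs]
  calc |pc κ k L a b x| ^ 2 ≤ ((|a| + |b|) * (Real.exp (κ * L) * Real.exp (-κ * |x|))) ^ 2 :=
        pow_le_pow_left₀ (abs_nonneg _) h1 2
    _ = ((|a| + |b|) * Real.exp (κ * L)) ^ 2 * Real.exp (-(2 * κ) * |x|) := by
        rw [← mul_assoc, mul_pow, ← Real.exp_nat_mul (-κ * |x|) 2]
        congr 2; push_cast; ring

/-- the right derivative of a piece -/
theorem pc_deriv {κ k L a b A A' a' b' : ℝ} (hL : 0 < L)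
    (h1 : κ * a = A * a')
    (h2 : k * b = A' * a') (h3 : -k * a = A' * b')
    (h4 : -κ * (a * Real.cos (k * L) + b * Real.sin (k * L)) =
      A * (a' * Real.cos (k * L) + b' * Real.sin (k * L))) {v : ℝ} (hv : A' = v + A) (x : ℝ) :
    HasDerivWithinAt (pc κ k L a b) ((well v L x + A) * pc κ k L a' b' x) (Ioi x) x := by
  rcases lt_or_ge x 0 with hx | hx
  · rw [well_out (Or.inl hx), zero_add, pc_left hL hx.le]
    have e : HasDerivAt (fun y => a * Real.exp (κ * y)) (a * (Real.exp (κ * x) * (κ * 1))) x :=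
      (((hasDerivAt_id x).const_mul κ).exp).const_mul a
    refine ((e.hasDerivWithinAt (s := Ioi x)).congr_of_eventuallyEq ?_ (pc_left hL hx.le)).congr_deriv ?_
    · filter_upwards [Ioo_mem_nhdsGT hx] with y hy
      exact pc_left hL hy.2.le
    · linear_combination Real.exp (κ * x) * h1
  · rcases lt_or_ge x L with hx2 | hx2
    · rw [well_in hx hx2, ← hv, pc_mid hx hx2.le]
      have e0 : HasDerivAt (fun y : ℝ => k * y) (k * 1) x := (hasDerivAt_id x).const_mul k
      have e : HasDerivAt (fun y => a * Real.cos (k * y) + b * Real.sin (k * y))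
          (a * (-Real.sin (k * x) * (k * 1)) + b * (Real.cos (k * x) * (k * 1))) x :=
        (e0.cos.const_mul a).add (e0.sin.const_mul b)
      refine ((e.hasDerivWithinAt (s := Ioi x)).congr_of_eventuallyEq ?_ (pc_mid hx hx2.le)).congr_deriv ?_
      · filter_upwards [Ioo_mem_nhdsGT hx2] with y hy
        exact pc_mid (hx.trans hy.1.le) hy.2.le
      · linear_combination Real.cos (k * x) * h2 + Real.sin (k * x) * h3
    · rw [well_out (Or.inr hx2), zero_add, pc_right hL hx2]
      have e0 : HasDerivAt (fun y : ℝ => -κ * (y - L)) (-κ * 1) x :=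
        ((hasDerivAt_id x).sub_const L).const_mul (-κ)
      have e : HasDerivAt (fun y => (a * Real.cos (k * L) + b * Real.sin (k * L)) *
          Real.exp (-κ * (y - L))) ((a * Real.cos (k * L) + b * Real.sin (k * L)) *
          (Real.exp (-κ * (x - L)) * (-κ * 1))) x := (e0.exp).const_mul _
      refine ((e.hasDerivWithinAt (s := Ioi x)).congr_of_eventuallyEq ?_ (pc_right hL hx2)).congr_deriv ?_
      · filter_upwards [self_mem_nhdsWithin] with y hy
        exact pc_right hL (hx2.trans (le_of_lt hy))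
      · linear_combination Real.exp (-κ * (x - L)) * h4

theorem pc_int {κ k L a b A A' a' b' : ℝ} (hL : 0 < L)
    (h1 : κ * a = A * a')
    (h2 : k * b = A' * a') (h3 : -k * a = A' * b')
    (h4 : -κ * (a * Real.cos (k * L) + b * Real.sin (k * L)) =
      A * (a' * Real.cos (k * L) + b' * Real.sin (k * L))) {v : ℝ} (hv : A' = v + A) (x : ℝ) :
    ((pc κ k L a b x : ℝ) : ℂ) = ((pc κ k L a b 0 : ℝ) : ℂ) +
      ∫ t in (0:ℝ)..x, ((well v L t + A : ℝ) : ℂ) * ((pc κ k L a' b' t : ℝ) : ℂ) := by
  have hint : IntervalIntegrable (fun t => (well v L t + A) * pc κ k L a' b' t) volume 0 x := by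
    apply IntervalIntegrable.mul_continuousOn _ (continuous_pc κ k L a' b').continuousOn
    exact (integrable_well v L).intervalIntegrable.add intervalIntegrable_const
  have h5 := intervalIntegral.integral_eq_sub_of_hasDeriv_right (a := 0) (b := x)
    (continuous_pc κ k L a b).continuousOn
    (fun y _ => pc_deriv hL h1 h2 h3 h4 hv y) hint
  have h6 : ∀ t, ((well v L t + A : ℝ) : ℂ) * ((pc κ k L a' b' t : ℝ) : ℂ) =
      (((well v L t + A) * pc κ k L a' b' t : ℝ) : ℂ) := by
    intro t; push_cast; ring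
  simp only [h6]
  rw [intervalIntegral.integral_ofReal, h5]
  push_cast; ring

end Pool.Agent.Q206.Dir
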