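import Pool.Agent.Q206.Dir.Gen
import Pool.Agent.Q206.Dir.Trig
import Pool.Agent.Q206.Dir.Main

namespace Pool.Agent.Q206.Dir

open MeasureTheory Set

/-- half of the phase across the well -/
noncomputable def ph (w v μ : ℝ) : ℝ := w * √((μ + v) ^ 2 - 1) / 2

noncomputable def GG (w v μ : ℝ) : ℝ :=
  2 * v * Real.cos (ph w v μ) ^ 2 - (1 + μ) * (μ + v - 1)

theorem mem_iff2 {m v w μ : ℝ} (hm : 0 < m) (hw : 0 < w) (h1 : -1 < μ) (h2 : μ < 1)
    (hE : 1 < μ + v) (hy : ph w v μ < Real.pi / 2) :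
    m * μ ∈ Eig m (well (m * v) (w / m)) ↔ GG w v μ = 0 := by
  have hμ2 : 0 < 1 - μ ^ 2 := by nlinarith
  have hE2 : 0 < (μ + v) ^ 2 - 1 := by nlinarith
  have hl : m * μ ∈ Ioo (-m) m := ⟨by nlinarith, by nlinarith⟩
  have hL : 0 < w / m := by positivity
  have hk0 : 0 < √((μ + v) ^ 2 - 1) := Real.sqrt_pos.2 hE2
  have hκ0 : 0 < √(1 - μ ^ 2) := Real.sqrt_pos.2 hμ2
  have hκ : 0 < m * √(1 - μ ^ 2) := by positivity
  have hκ2 : (m * √(1 - μ ^ 2)) ^ 2 = m ^ 2 - (m * μ) ^ 2 := by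
    rw [mul_pow, Real.sq_sqrt hμ2.le]; ring
  have hk : m * √((μ + v) ^ 2 - 1) ≠ 0 := by positivity
  have hk2 : (m * √((μ + v) ^ 2 - 1)) ^ 2 = (m * μ + m * v) ^ 2 - m ^ 2 := by
    rw [mul_pow, Real.sq_sqrt hE2.le]; ring
  have hkL : m * √((μ + v) ^ 2 - 1) * (w / m) = 2 * ph w v μ := by
    unfold ph; field_simp
  have hph : 0 < ph w v μ := by unfold ph; positivity
  have hc : 0 < Real.cos (ph w v μ) :=
    Real.cos_pos_of_mem_Ioo ⟨by linarith [Real.pi_pos], hy⟩
  have hs : 0 < Real.sin (ph w v μ) :=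
    Real.sin_pos_of_pos_of_lt_pi hph (by linarith [Real.pi_pos])
  have ha0 : 0 < (1 - μ) * (1 + (μ + v)) := mul_pos (by linarith) (by linarith)
  have hb0 : 0 < (1 + μ) * (μ + v - 1) := mul_pos (by linarith) (by linarith)
  set a := √((1 - μ) * (1 + (μ + v))) with hadef
  set b := √((1 + μ) * (μ + v - 1)) with hbdef
  have ha : 0 < a := Real.sqrt_pos.2 ha0
  have hb : 0 < b := Real.sqrt_pos.2 hb0
  have ha2 : a ^ 2 = (1 - μ) * (1 + (μ + v)) := Real.sq_sqrt ha0.le
  have hb2 : b ^ 2 = (1 + μ) * (μ + v - 1) := Real.sq_sqrt hb0.le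
  have hab : √(1 - μ ^ 2) * √((μ + v) ^ 2 - 1) = a * b := by
    rw [hadef, hbdef, ← Real.sqrt_mul hμ2.le, ← Real.sqrt_mul ha0.le]
    congr 1
    ring
  set c := Real.cos (ph w v μ) with hcdef
  set s := Real.sin (ph w v μ) with hsdef
  have hcs : s ^ 2 + c ^ 2 = 1 := Real.sin_sq_add_cos_sq _
  have hF : m * √(1 - μ ^ 2) * (m * √((μ + v) ^ 2 - 1)) *
      Real.cos (m * √((μ + v) ^ 2 - 1) * (w / m)) +
      (m ^ 2 - (m * μ) ^ 2 - m * v * (m * μ)) *
      Real.sin (m * √((μ + v) ^ 2 - 1) * (w / m)) =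
      m ^ 2 * ((a * c - b * s) * (b * c + a * s)) := by
    rw [hkL, Real.cos_two_mul, Real.sin_two_mul, ← hcdef, ← hsdef]
    have e1 : m * √(1 - μ ^ 2) * (m * √((μ + v) ^ 2 - 1)) = m ^ 2 * (a * b) := by
      rw [← hab]; ring
    rw [e1]
    linear_combination (m ^ 2 * a * b) * hcs - m ^ 2 * s * c * ha2 + m ^ 2 * s * c * hb2
  have hG : GG w v μ = (a * c - b * s) * (a * c + b * s) := by
    unfold GG
    rw [← hcdef]
    linear_combination (b ^ 2) * hcs - c ^ 2 * ha2 + (1 - c ^ 2) * hb2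
  have p1 : 0 < b * c + a * s := by positivity
  have p2 : 0 < a * c + b * s := by positivity
  rw [hG]
  constructor
  · rintro ⟨_, f, g, hsol, hf, hg, hne⟩
    have := nec hl hL hκ hκ2 hk hk2 hsol hf hg hne
    rw [hF] at this
    have h3 := (mul_eq_zero.1 this).resolve_left (by positivity)
    have h4 := (mul_eq_zero.1 h3).resolve_right p1.ne'
    rw [h4, zero_mul]
  · intro h
    have h4 := (mul_eq_zero.1 h).resolve_right p2.ne'
    apply suf hl hL hκ hκ2 hk hk2
    rw [hF, h4, zero_mul, mul_zero]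

theorem ph_mono {w v μ ν : ℝ} (hw : 0 < w) (hE : 1 ≤ μ + v) (h : μ ≤ ν) :
    ph w v μ ≤ ph w v ν := by
  unfold ph
  have : √((μ + v) ^ 2 - 1) ≤ √((ν + v) ^ 2 - 1) := by
    apply Real.sqrt_le_sqrt
    nlinarith
  have := mul_le_mul_of_nonneg_left this hw.le
  linarith

theorem ph_eq {w v c k0 : ℝ} (hk : (c + v) ^ 2 - 1 = k0 ^ 2) (hk0 : 0 ≤ k0) :
    ph w v c = w * k0 / 2 := by
  unfold ph
  rw [hk, Real.sqrt_sq hk0]

theorem lower2 {m v w c C k0 : ℝ} (hm : 0 < m) (hw : 0 < w) (hv : 0 < v)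
    (hc2 : c < 1) (hk : (c + v) ^ 2 - 1 = k0 ^ 2) (hk0 : 0 ≤ k0)
    (hy : w * k0 / 2 ≤ 3 / 2) (hC : 0 < C) (hcos : C ≤ Real.cos (w * k0 / 2))
    (hG : (1 + c) * (c + v - 1) < 2 * v * C ^ 2) :
    m * c ≤ lamD m (well (m * v) (w / m)) := by
  have hpi := Real.pi_gt_three
  unfold lamD
  apply le_csInf ⟨m, mem_insert _ _⟩
  intro l hl
  rcases mem_insert_iff.1 hl with hl | hl
  · rw [hl]; nlinarith
  · have hI := hl.1
    have e : l = m * (l / m) := by field_simp
    have h1 : -1 < l / m := by rw [lt_div_iff₀ hm]; linarith [hI.1]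
    have h2 : l / m < 1 := by rw [div_lt_iff₀ hm]; linarith [hI.2]
    generalize l / m = μ at e h1 h2
    subst e
    rcases le_or_gt c μ with h | h
    · exact mul_le_mul_of_nonneg_left h hm.le
    · exfalso
      rcases le_or_gt (μ + v) 1 with h3 | h3
      · refine noLow hI (by positivity) (by positivity) ?_ hl
        have := mul_le_mul_of_nonneg_left h3 hm.le
        linarith
      · have h4 := ph_mono (w := w) hw h3.le h.le
        rw [ph_eq hk hk0] at h4
        have h5 := (mem_iff2 hm hw h1 h2 h3 (by linarith)).1 hl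
        have h0 : 0 ≤ ph w v μ := by unfold ph; positivity
        have h6 : Real.cos (w * k0 / 2) ≤ Real.cos (ph w v μ) :=
          Real.cos_le_cos_of_nonneg_of_le_pi h0 (by linarith) h4
        unfold GG at h5
        have h7 : C ^ 2 ≤ Real.cos (ph w v μ) ^ 2 :=
          pow_le_pow_left₀ hC.le (hcos.trans h6) 2
        have h8 : 2 * v * C ^ 2 ≤ 2 * v * Real.cos (ph w v μ) ^ 2 :=
          mul_le_mul_of_nonneg_left h7 (by linarith)
        have h9 : (1 + μ) * (μ + v - 1) ≤ (1 + c) * (c + v - 1) :=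
          mul_le_mul (by linarith) (by linarith) (by linarith) (by linarith)
        linarith

theorem upper2 {m v w c C k0 : ℝ} (hm : 0 < m) (hw : 0 < w) (hv : 0 < v) (hv2 : v < 2)
    (hc2 : c < 1) (hE : 1 < c + v) (hk : (c + v) ^ 2 - 1 = k0 ^ 2) (hk0 : 0 ≤ k0)
    (hy : w * k0 / 2 ≤ 3 / 2) (hcos : Real.cos (w * k0 / 2) ≤ C)
    (hG : 2 * v * C ^ 2 < (1 + c) * (c + v - 1)) :
    lamD m (well (m * v) (w / m)) < m * c := by
  have hpi := Real.pi_gt_three
  have hGc : GG w v c < 0 := by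
    unfold GG
    rw [ph_eq hk hk0]
    have h0 : 0 ≤ Real.cos (w * k0 / 2) :=
      Real.cos_nonneg_of_mem_Icc ⟨by linarith [mul_nonneg hw.le hk0], by linarith⟩
    have h1 : Real.cos (w * k0 / 2) ^ 2 ≤ C ^ 2 := pow_le_pow_left₀ h0 hcos 2
    have h2 : 2 * v * Real.cos (w * k0 / 2) ^ 2 ≤ 2 * v * C ^ 2 :=
      mul_le_mul_of_nonneg_left h1 (by linarith)
    linarith
  have hGa : 0 < GG w v (1 - v) := by
    unfold GG ph
    simp
    exact hv
  have hcont : ContinuousOn (GG w v) (Icc (1 - v) c) := by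
    apply Continuous.continuousOn
    unfold GG ph
    fun_prop
  obtain ⟨μ, hμ, h0⟩ := intermediate_value_Icc' (by linarith) hcont ⟨hGc.le, hGa.le⟩
  have hμ1 : 1 - v < μ := by
    rcases hμ.1.lt_or_eq with h | h
    · exact h
    · rw [← h] at h0; rw [h0] at hGa; exact absurd hGa (lt_irrefl _)
  have hμ2 : μ < c := by
    rcases hμ.2.lt_or_eq with h | h
    · exact h
    · rw [h] at h0; rw [h0] at hGc; exact absurd hGc (lt_irrefl _)
  have h4 := ph_mono (w := w) (v := v) (μ := μ) (ν := c) hw (by linarith) hμ2.le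
  rw [ph_eq hk hk0] at h4
  have hmem := (mem_iff2 hm hw (by linarith) (by linarith) (by linarith) (by linarith)).2 h0
  refine lt_of_le_of_lt (csInf_le (bdd m hm _) (mem_insert_of_mem _ hmem)) ?_
  exact mul_lt_mul_of_pos_left hμ2 hm

theorem val2 {m : ℝ} (hm : 0 < m) :
    m * (-22451 / 40140) ≤ lamD m (well (m * 2) (13 / 5 / m)) := by
  apply lower2 (k0 := 41629 / 40140) (C := 2207 / 10000) hm (by norm_num) (by norm_num)
    (by norm_num) (by norm_num) (by norm_num) (by norm_num)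
    (by norm_num) ?_ (by norm_num)
  refine le_trans ?_ (cos_ge_P10 _ (by norm_num))
  norm_num

theorem val1 {m : ℝ} (hm : 0 < m) :
    m * (-25 / 172) ≤ lamD m (well (m * (5513 / 3612)) (13 / 5 / m)) := by
  apply lower2 (k0 := 20 / 21) (C := 32659 / 100000) hm (by norm_num) (by norm_num)
    (by norm_num) (by norm_num) (by norm_num) (by norm_num)
    (by norm_num) ?_ (by norm_num)
  refine le_trans ?_ (cos_ge_P10 _ (by norm_num))
  norm_num

theorem valm {m : ℝ} (hm : 0 < m) :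
    lamD m (well (m * (12737 / 7224)) (13 / 5 / m)) < m * (-19123339 / 54216120) := by
  apply upper2 (k0 := 29859 / 30020) (C := 2743 / 10000) hm (by norm_num) (by norm_num)
    (by norm_num) (by norm_num) (by norm_num) (by norm_num) (by norm_num) (by norm_num)
    ?_ (by norm_num)
  refine le_trans (cos_le_P8 _ (by norm_num)) ?_
  norm_num

theorem concavity2 {m : ℝ} (hm : 0 < m) :
    lamD m (well (m * (12737 / 7224)) (13 / 5 / m)) <
      1 / 2 * lamD m (well (m * (5513 / 3612)) (13 / 5 / m)) +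
      1 / 2 * lamD m (well (m * 2) (13 / 5 / m)) := by
  have h1 := val1 hm
  have h2 := val2 hm
  have h3 := valm hm
  have h4 : m * (-19123339 / 54216120) ≤
      1 / 2 * (m * (-25 / 172)) + 1 / 2 * (m * (-22451 / 40140)) := by
    nlinarith
  linarith

theorem upper3 {m v w c C k0 : ℝ} (hm : 0 < m) (hw : 0 < w) (hv : 2 < v)
    (hc1 : -1 < c) (hc2 : c < 1) (hk : (c + v) ^ 2 - 1 = k0 ^ 2) (hk0 : 0 ≤ k0)
    (hy : w * k0 / 2 ≤ 3 / 2) (hcos : Real.cos (w * k0 / 2) ≤ C)
    (hG : 2 * v * C ^ 2 < (1 + c) * (c + v - 1)) :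
    lamD m (well (m * v) (w / m)) < m * c := by
  have hpi := Real.pi_gt_three
  have hGc : GG w v c < 0 := by
    unfold GG
    rw [ph_eq hk hk0]
    have h0 : 0 ≤ Real.cos (w * k0 / 2) :=
      Real.cos_nonneg_of_mem_Icc ⟨by linarith [mul_nonneg hw.le hk0], by linarith⟩
    have h1 : Real.cos (w * k0 / 2) ^ 2 ≤ C ^ 2 := pow_le_pow_left₀ h0 hcos 2
    have h2 : 2 * v * Real.cos (w * k0 / 2) ^ 2 ≤ 2 * v * C ^ 2 :=
      mul_le_mul_of_nonneg_left h1 (by linarith)
    linarith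
  have hGa : 0 < GG w v (-1) := by
    have h1 := ph_mono (w := w) (v := v) (μ := -1) (ν := c) hw (by linarith) hc1.le
    rw [ph_eq hk hk0] at h1
    have h0 : 0 ≤ ph w v (-1) := by unfold ph; positivity
    have h2 : 0 < Real.cos (ph w v (-1)) :=
      Real.cos_pos_of_mem_Ioo ⟨by linarith, by linarith⟩
    unfold GG
    rw [add_neg_cancel, zero_mul, sub_zero]
    positivity
  have hcont : ContinuousOn (GG w v) (Icc (-1) c) := by
    apply Continuous.continuousOn
    unfold GG ph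
    fun_prop
  obtain ⟨μ, hμ, h0⟩ := intermediate_value_Icc' hc1.le hcont ⟨hGc.le, hGa.le⟩
  have hμ1 : -1 < μ := by
    rcases hμ.1.lt_or_eq with h | h
    · exact h
    · rw [← h] at h0; rw [h0] at hGa; exact absurd hGa (lt_irrefl _)
  have hμ2 : μ < c := by
    rcases hμ.2.lt_or_eq with h | h
    · exact h
    · rw [h] at h0; rw [h0] at hGc; exact absurd hGc (lt_irrefl _)
  have h4 := ph_mono (w := w) (v := v) (μ := μ) (ν := c) hw (by linarith) hμ2.le
  rw [ph_eq hk hk0] at h4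
  have hmem := (mem_iff2 hm hw (by linarith) (by linarith) (by linarith) (by linarith)).2 h0
  refine lt_of_le_of_lt (csInf_le (bdd m hm _) (mem_insert_of_mem _ hmem)) ?_
  exact mul_lt_mul_of_pos_left hμ2 hm

theorem wal2 {m : ℝ} (hm : 0 < m) :
    m * (-527939 / 3336060) ≤ lamD m (well (m * 4) (107 / 200 / m)) := by
  apply lower2 (k0 := 12374501 / 3336060) (C := 546814 / 1000000) hm (by norm_num) (by norm_num)
    (by norm_num) (by norm_num) (by norm_num) (by norm_num)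
    (by norm_num) ?_ (by norm_num)
  refine le_trans ?_ (cos_ge_P10 _ (by norm_num))
  norm_num

theorem wal1 {m : ℝ} (hm : 0 < m) :
    m * (-181723 / 4707840) ≤ lamD m (well (m * (37 / 10)) (107 / 200 / m)) := by
  apply lower2 (k0 := 3316385 / 941568) (C := 588020 / 1000000) hm (by norm_num) (by norm_num)
    (by norm_num) (by norm_num) (by norm_num) (by norm_num)
    (by norm_num) ?_ (by norm_num)
  refine le_trans ?_ (cos_ge_P10 _ (by norm_num))
  norm_num

theorem walm {m : ℝ} (hm : 0 < m) :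
    lamD m (well (m * (77 / 20)) (107 / 200 / m)) < m * (-34833 / 353780) := by
  apply upper3 (k0 := 63960 / 17689) (C := 56759 / 100000) hm (by norm_num) (by norm_num)
    (by norm_num) (by norm_num) (by norm_num) (by norm_num) (by norm_num)
    ?_ (by norm_num)
  refine le_trans (cos_le_P8 _ (by norm_num)) ?_
  norm_num

theorem concavity3 {m : ℝ} (hm : 0 < m) :
    lamD m (well (m * (77 / 20)) (107 / 200 / m)) <
      1 / 2 * lamD m (well (m * (37 / 10)) (107 / 200 / m)) +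
      1 / 2 * lamD m (well (m * 4) (107 / 200 / m)) := by
  have h1 := wal1 hm
  have h2 := wal2 hm
  have h3 := walm hm
  have h4 : m * (-34833 / 353780) ≤
      1 / 2 * (m * (-181723 / 4707840)) + 1 / 2 * (m * (-527939 / 3336060)) := by
    nlinarith
  linarith

end Pool.Agent.Q206.Dir
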